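import Pool.Agent.H17.AH.Defs

/-!
# MP_70ba79_ag: targets of the board `ahy_modules`, part D (descent and compactness)

Compare `Pool/Agent/H17/BO/TargetsD.lean`. The degree of the linear form `frm cH` is written
`e₀ + 1` with `e₀ = 0`.
-/

set_option autoImplicit false

namespace Pool.Agent.H17.AH

open MvPolynomial SC Pool.Agent.H27.LV Pool.Agent.H17.VG
open Pool.Agent.H30.VM Pool.Agent.H17.BO
open Pool.Agent.H17.CI (Tup IlT PQT TxT frmT upT RatT)

/-- BZH: the zeros of a nonzero binary form over an algebraically closed field are rational -/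
def T_BZH : Prop := ∀ (k : Type) [Field k] [IsAlgClosed k] [CharZero k] (n d : ℕ)
  (F : MvPolynomial (Fin (n + 1)) k), F.IsHomogeneous d → ∀ A B C : Fin (n + 1) → k,
  (∀ s t : k, eval (fun l => s ^ 2 * A l + s * t * B l + t ^ 2 * C l) F = 0) ∨
  ∀ (Ω : Type) [Field Ω] [Algebra k Ω] (u v : Ω),
    eval (fun l => u ^ 2 * algebraMap k Ω (A l) + u * v * algebraMap k Ω (B l) +
      v ^ 2 * algebraMap k Ω (C l)) (MvPolynomial.map (algebraMap k Ω) F) = 0 →
    ∃ s t : k, (s ≠ 0 ∨ t ≠ 0) ∧ u * algebraMap k Ω t = v * algebraMap k Ω s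

/-- KLVH: the algebraic theorem relative to a field `k` which is algebraically closed in `L`.
(Compare `Pool.Agent.H17.BO.T_KLV`: T_ALH over an algebraic closure of `k` and a common extension;
lines descend by `Pool.Agent.H17.BO.T_KLL`, conics by `Pool.Agent.H17.BO.T_KLC`; if `F` is not zero
on the conic then by T_BZH the point `x` is rational, so it is on a line; if it is zero use
`Pool.Agent.H17.BO.T_PAR` and `Pool.Agent.H17.BO.T_CSU`.) -/
def T_KLVH : Prop := ∀ (k L : Type) [Field k] [CharZero k] [Field L] [Algebra k L],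
  (∀ z : L, IsAlgebraic k z → z ∈ Set.range (algebraMap k L)) → ∀ n e e₀ : ℕ, 2 ≤ e → e₀ = 0 →
  ∀ (cF : Mon (n + 1) (e + 1) → k) (cH : Mon (n + 1) (e₀ + 1) → k),
  AlgebraicIndependent ℚ (Sum.elim cF cH) →
  ∀ (x : Fin (n + 1) → L) (y : Fin 2 → Mon (n + 1) (e + 1) → L) (ν : Fin 2 → Fin (n + 1) → L),
  FunH (up L (frm cF)) (up L (frm cH)) x y ν → eval x (up L (frm cF)) = 0 →
  eval x (up L (frm cH)) ≠ 0 → ∀ κ : L,
  (∀ (M M' : Mon (n + 1) e) (a : Fin 3 → Fin (n + 1)), ∃ r : k,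
    det3 x y (frm (Pi.single M 1 + Pi.single M' 1)) a = κ * algebraMap k L r) →
  (∃ (Q : Mon (n + 1) e → k) (a : Fin 3 → Fin (n + 1)), det3 x y (up L (frm Q)) a ≠ 0) →
  OnLine k x ∨ ∃ B C, LinearIndependent L ![x, B, C] ∧ res2 x B C (up L (frm cF)) = 0

/-- CMPH: the algebraic theorem with heights. (Compare `Pool.Agent.H17.BO.T_CMP`: an ultraproduct of
counterexamples, T_KLVH, `Pool.Agent.H17.BO.T_TFL` and `Pool.Agent.H17.BO.T_TFE`; the latter is
used with `TwoRoots2`, which for `F (x) = 0` says that `F` is zero on the conic.) -/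
def T_CMPH : Prop := ∀ n e : ℕ, 2 ≤ e → ∃ C : ℕ, ∀ (k K : Type) [Field k] [IsAlgClosed k]
  [CharZero k] [Field K] [Algebra k K] [Algebra.EssFiniteType k K], Algebra.trdeg k K = 1 →
  ∀ e₀ : ℕ, e₀ = 0 → ∀ (cF : Mon (n + 1) (e + 1) → k) (cH : Mon (n + 1) (e₀ + 1) → k),
  AlgebraicIndependent ℚ (Sum.elim cF cH) → ∀ (x : Fin (n + 1) → K)
  (p : Fin (n + 1)), x p = 1 → eval x (up K (frm cF)) = 0 → eval x (up K (frm cH)) ≠ 0 →
  ∀ (y : Fin 2 → Mon (n + 1) (e + 1) → K) (ν : Fin 2 → Fin (n + 1) → K),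
  FunH (up K (frm cF)) (up K (frm cH)) x y ν →
  ∀ (q : Mon (n + 1) e → k) (a0 : Fin 3 → Fin (n + 1)),
  det3 x y (up K (frm q)) a0 ≠ 0 → ∀ B : ℕ,
  (∀ (M M' : Mon (n + 1) e) (a : Fin 3 → Fin (n + 1)),
    h1 k (det3 x y (frm (Pi.single M 1 + Pi.single M' 1)) a /
      det3 x y (up K (frm q)) a0) ≤ B) →
  (∀ b c', LinearIndependent K ![x, b, c'] → res2 x b c' (up K (frm cF)) ≠ 0) →
  deg k x ≤ C * B ∨
  ∃ (z : Fin (n + 1) → K) (a b : Fin (n + 1)), Indep x z ∧ x a * z b - x b * z a ≠ 0 ∧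
    hln k x z a b ≤ C * B

end Pool.Agent.H17.AH
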