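import Pool.Agent.H17.AH.Defs
import Pool.Agent.H30.VM.TargetsG

/-!
# MP_70ba79_ag: targets of the board `ahy_modules`, part F (main theorems)
-/

set_option autoImplicit false

namespace Pool.Agent.H17.AH

open MvPolynomial SC Pool.Agent.H27.LV Pool.Agent.H17.VG
open Pool.Agent.H30.VM Pool.Agent.H17.BO
open Pool.Agent.H17.CI (Tup IlT PQT TxT frmT upT RatT)

/-- ALBH: the alternative: bounded height, or a line of small height -/
def T_ALBH : Prop := ∀ (n : ℕ) (ι : Type) [Fintype ι] (i₀ i₁ : ι) (e : ι → ℕ) (δ : ℕ), 1 ≤ δ →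
  n = 2 * δ + 2 → i₀ ≠ i₁ → (∀ i, i = i₀ ∨ i = i₁) → e i₀ = 0 → e i₁ = 3 * δ + 1 → ∃ C : ℕ,
  ∀ (k : Type) [Field k] [IsAlgClosed k] [CharZero k] (c : (Σ i, Mon (n + 1) (e i + 1)) → k),
  AlgebraicIndependent ℚ c → ∀ (K : Type) [Field K] [Algebra k K] [Algebra.EssFiniteType k K],
  Algebra.trdeg k K = 1 → ∀ (D : Derivation k K K), D ≠ 0 →
  ∀ (x : Fin (n + 1) → K) (p : Fin (n + 1)), x p = 1 →
  (∃ j, x j ∉ Set.range (algebraMap k K)) →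
  (∀ i, eval x (upT K (frmT c) i) = 0 ↔ i ∈ ({i₁} : Finset ι)) →
  (∀ y : Fin (n + 1) → K, Indep x y → ¬ Exc e {i₁} (upT K (frmT c)) x y) →
  (∀ b c', LinearIndependent K ![x, b, c'] → res2 x b c' (upT K (frmT c) i₁) ≠ 0) →
  ∀ S : Finset (DV k K),
  (∀ v, v ∉ S → ∀ i, i ∉ ({i₁} : Finset ι) → v.ord (eval x (upT K (frmT c) i)) =
    -((e i + 1 : ℕ) * poleOrder v x)) →
  0 ≤ canDeg D + S.card ∧ ((deg k x : ℤ) ≤ C * (canDeg D + S.card) ∨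
  ∃ (y : Fin (n + 1) → K) (a b : Fin (n + 1)), Indep x y ∧ x a * y b - x b * y a ≠ 0 ∧
    (hln k x y a b : ℤ) ≤ C * (canDeg D + S.card))

/-- MNBH: the main theorem, in homogeneous coordinates -/
def T_MNBH : Prop := ∀ (n : ℕ) (ι : Type) [Fintype ι] (i₀ i₁ : ι) (e : ι → ℕ) (δ : ℕ), 1 ≤ δ →
  n = 2 * δ + 2 → i₀ ≠ i₁ → (∀ i, i = i₀ ∨ i = i₁) → e i₀ = 0 → e i₁ = 3 * δ + 1 → ∃ C : ℕ,
  ∀ (k : Type) [Field k] [IsAlgClosed k] [CharZero k] (c : (Σ i, Mon (n + 1) (e i + 1)) → k),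
  AlgebraicIndependent ℚ c → ∀ (K : Type) [Field K] [Algebra k K] [Algebra.EssFiniteType k K],
  Algebra.trdeg k K = 1 → ∀ (D : Derivation k K K), D ≠ 0 →
  ∀ (x : Fin (n + 1) → K) (p : Fin (n + 1)), x p = 1 →
  (∃ j, x j ∉ Set.range (algebraMap k K)) →
  (∀ i, eval x (upT K (frmT c) i) = 0 ↔ i ∈ ({i₁} : Finset ι)) →
  (∀ y : Fin (n + 1) → K, Indep x y → ¬ Exc e {i₁} (upT K (frmT c)) x y) →
  (∀ b c', LinearIndependent K ![x, b, c'] → res2 x b c' (upT K (frmT c) i₁) ≠ 0) →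
  ∀ S : Finset (DV k K),
  (∀ v, v ∉ S → ∀ i, i ∉ ({i₁} : Finset ι) → v.ord (eval x (upT K (frmT c) i)) =
    -((e i + 1 : ℕ) * poleOrder v x)) →
  (deg k x : ℤ) ≤ C * (canDeg D + S.card)

/-- the border cases: the complement of one hypersurface, or one hypersurface of degree at least
two in affine space -/
def Border (n : ℕ) {ι : Type} [Fintype ι] (e : ι → ℕ) (Z : Finset ι) : Prop :=
  n + 2 ≤ ∑ i, (e i + 1) ∧ 3 * n + 1 = 2 * ∑ i, (e i + 1) + Z.card ∧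
  ((Z = ∅ ∧ Fintype.card ι = 1) ∨
    ∃ i₀ i₁ : ι, i₀ ≠ i₁ ∧ (∀ i, i = i₀ ∨ i = i₁) ∧ Z = {i₁} ∧ e i₀ = 0)

/-- the point `z` of `X` lies on a smooth conic which is contained in `F i = 0`, `i` in `Z`, and
meets the boundary in at most two points -/
def excCon {k : Type} [Field k] {n : ℕ} {ι : Type} [Fintype ι] [DecidableEq ι] {e : ι → ℕ}
    (Z : Finset ι) (c : (Σ i, Mon (n + 1) (e i + 1)) → k) (K : Type) [Field K] [Algebra k K]
    (z : Mon (n + 1) (dgB e Z) → K) : Prop :=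
  ∃ x b c' : Fin (n + 1) → K, IsPt Z c z x ∧ LinearIndependent K ![x, b, c'] ∧
    (∀ i ∈ Z, res2 x b c' (upT K (frmT c) i) = 0) ∧
    TwoRoots2 (dgB e Z) (up K (bnd Z c)) x b c'

/-- FIPU: very general log complete intersections, with the two border cases -/
def T_FIPU : Prop :=
    ∀ (n : ℕ) (ι : Type) [Fintype ι] [DecidableEq ι] (e : ι → ℕ)
    (Z : Finset ι), Z ≠ Finset.univ → Z.card < n →
    3 * n + 2 ≤ 2 * ∑ i, (e i + 1) + Z.card ∨ Border n e Z →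
    ∃ C : ℕ, ∀ (k : Type) [Field k] [IsAlgClosed k] [CharZero k]
    (c : (Σ i, Mon (n + 1) (e i + 1)) → k), AlgebraicIndependent ℚ c →
    DegreeBoundOff k (eqsP Z c)
      (fun K _ _ z => excP Z c K z ∨ (Border n e Z ∧ excCon Z c K z)) (fun χ => C * χ) ∧
    (∃ Ψ : MvPolynomial (Mon (n + 1) (dgB e Z)) k,
      (∃ z : Mon (n + 1) (dgB e Z) → k, (∀ g ∈ eqsP Z c, aeval z g = 0) ∧ aeval z Ψ ≠ 0) ∧
      ∀ (K : Type) [Field K] [Algebra k K] (z : Mon (n + 1) (dgB e Z) → K),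
        (excP Z c K z ∨ (Border n e Z ∧ excCon Z c K z)) → aeval z Ψ = 0) ∧
    ∀ (K : Type) [Field K] [Algebra k K] (z : Mon (n + 1) (dgB e Z) → K),
      (∀ g ∈ eqsP Z c, aeval z g = 0) ↔ ∃ x, IsPt Z c z x

end Pool.Agent.H17.AH
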