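import Pool.Agent.H17.AH.TargetsA
import Pool.Agent.H17.AH.TargetsD
import Pool.Agent.H17.AH.TargetsF
import Pool.Agent.H17.BO.ALB
import Pool.Agent.H30.VMP.ALT
import Pool.Agent.H30.VMP.FIP

/-!
# MP_70ba79_ag: the alternative and the main theorem for affine hypersurfaces in the border case
(rows ALBH, MNBH of the board `ahy_modules`)
-/

set_option autoImplicit false

namespace Pool.Agent.H17.AH

open MvPolynomial SC Pool.Agent.H27.LV Pool.Agent.H17.VG
open Pool.Agent.H30.VM Pool.Agent.H17.BO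
open Pool.Agent.H17.CI (Tup IlT PQT TxT frmT upT RatT)

lemma dirMap {k K : Type} [Field k] [Field K] [Algebra k K] {n : ℕ}
    (w : Fin (n + 1) → k) (G : MvPolynomial (Fin (n + 1)) k) :
    up K (dir w G) = dir (fun j => algebraMap k K (w j)) (up K G) := by
  unfold up dir
  rw [map_sum]
  refine Finset.sum_congr rfl fun j _ => ?_
  rw [map_mul, map_C, pderiv_map]

lemma dirHom {K : Type} [Field K] {n d : ℕ} (w : Fin (n + 1) → K)
    {G : MvPolynomial (Fin (n + 1)) K} (hG : G.IsHomogeneous (d + 1)) :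
    (dir w G).IsHomogeneous d := by
  unfold dir
  refine IsHomogeneous.sum _ _ _ fun j _ => ?_
  have h1 := (isHomogeneous_C (Fin (n + 1)) (w j)).mul (hG.pderiv (i := j))
  simpa using h1

/-- a linear form which is not zero takes the value one -/
lemma exists_one {k : Type} [Field k] [Infinite k] {n e : ℕ} (he : e = 0)
    {H : MvPolynomial (Fin (n + 1)) k} (hH : H.IsHomogeneous (e + 1)) (hH0 : H ≠ 0) :
    ∃ w : Fin (n + 1) → k, eval w H = 1 := by
  by_contra hne
  refine hH0 (MvPolynomial.funext fun v => ?_)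
  rw [map_zero]
  by_contra hv
  refine hne ⟨(eval v H)⁻¹ • v, ?_⟩
  have h1 : eval ((eval v H)⁻¹ • v) H = ((eval v H)⁻¹) ^ (e + 1) * eval v H :=
    Pool.Agent.H30.VMP.eval_smul_hom hH _ _
  rw [h1, he, zero_add, pow_one, inv_mul_cancel₀ hv]

/-- a family with one component -/
noncomputable def fam {k : Type} [Field k] {n : ℕ} {ι : Type} (i₁ : ι) (e : ι → ℕ)
    (g : Mon (n + 1) (e i₁) → k) : (Σ i, Mon (n + 1) (e i)) → k :=
  fun p => letI := Classical.decEq ι; if h : p.1 = i₁ then g (h ▸ p.2) else 0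

lemma frmT_fam {k : Type} [Field k] {n : ℕ} {ι : Type} (i₁ : ι) (e : ι → ℕ)
    (g : Mon (n + 1) (e i₁) → k) : frmT (fam i₁ e g) i₁ = frm g := by
  unfold frmT fam
  congr 1
  funext M
  simp

lemma frmT_fam' {k : Type} [Field k] {n : ℕ} {ι : Type} (i₀ i₁ : ι) (hne : i₀ ≠ i₁)
    (e : ι → ℕ) (g : Mon (n + 1) (e i₁) → k) : frmT (fam i₁ e g) i₀ = 0 := by
  have h0 : (fun M : Mon (n + 1) (e i₀) => fam i₁ e g ⟨i₀, M⟩) = 0 := by
    funext M
    unfold fam
    simp [hne]
  show frm (fun M : Mon (n + 1) (e i₀) => fam i₁ e g ⟨i₀, M⟩) = 0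
  rw [h0]
  unfold frm
  refine Finset.sum_eq_zero fun M _ => ?_
  rw [Pi.zero_apply, map_zero, zero_mul]

theorem pf_ALBH (hST : T_STBT) (hSM : Pool.Agent.H30.VM.T_SMT) (hD : T_DT) (hD3 : T_D3T)
    (hRED : T_REDH) (hG : T_GT) (hNC : Pool.Agent.H30.VM.T_NC) (hEV : T_EVT)
    (hCMP : T_CMPH) : T_ALBH := by
  intro n ι _ i₀ i₁ e δ hδ hn hne hall he0 he1
  obtain ⟨C, hC⟩ := hCMP n (e i₁) (by omega)
  refine ⟨C + 1, ?_⟩
  have hsum : ∑ i, (e i + 1) = n + 1 + δ := by
    classical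
    have hu : (Finset.univ : Finset ι) = {i₀, i₁} := by
      ext i
      simpa using hall i
    rw [hu, Finset.sum_pair hne, he0, he1, hn]
    omega
  intro k _ _ _ c hc K _ _ _ htr D hD0 x p hx1 hx hon hline hconic S hS
  have hn1 : 1 ≤ n := by omega
  have hn2 : n + 2 ≤ ∑ i, (e i + 1) := by omega
  have hi₀ : i₀ ∉ ({i₁} : Finset ι) := by
    rw [Finset.mem_singleton]
    exact hne
  obtain ⟨R, hR⟩ := hG k n ι i₀ e c hn1 hn2 hc
  obtain ⟨D', hD', hsys, hrat⟩ := hR K htr D hD0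
  have hcK : CharZero K := charZero_of_injective_algebraMap (algebraMap k K).injective
  have hx0 : x ≠ 0 := by
    intro h0
    rw [h0] at hx1
    exact zero_ne_one hx1
  have hPt : Pt {i₁} (upT K (frmT c)) D' x := by
    refine ⟨hon, ?_, ?_⟩
    · have h1 := hNC K n ι e (fun M => algebraMap k K (c M)) (Pool.Agent.H17.CI.algInd_map c hc)
        x hx0 {i₁} (by
        intro i hi
        rw [← Pool.Agent.H17.CI.upT_frmT]
        exact (hon i).2 hi)
      rw [← Pool.Agent.H17.CI.upT_frmT] at h1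
      exact h1
    · have : (fun i => D' (x i)) = fun i => D (x i) := funext fun i => hD' _
      rw [this]
      refine indep_D D x p hx1 ?_
      obtain ⟨j, hj⟩ := hx
      exact ⟨j, fun h0 => hj (ker k K htr D hD0 _ h0)⟩
  have hC0 : (0 : ℤ) ≤ C := Int.natCast_nonneg C
  obtain ⟨-, -, -, hfr, hle⟩ := hEV R K n ι i₀ e (upT K (frmT c)) D' {i₁} x hsys hPt
  rcases hST R k K n ι i₀ e (upT K (frmT c)) D' {i₁} x δ hδ hi₀
    (by rw [Finset.card_singleton]; omega) hsum hsys hPt hline with ⟨Q, hQ⟩ | ⟨Q, q, hQ, hq⟩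
  · have hle' : Module.finrank K (UtT R i₀ (upT K (frmT c)) x
        (PQT x fun j => upT K (frmT (Q j)))) + ({i₁} : Finset ι).card ≤ n + 1 := by
      have h1 := hle (PQT x fun j => upT K (frmT (Q j))) (by
        intro G hG i _
        unfold PQT at hG
        induction hG using Submodule.span_induction with
        | mem G hG =>
          obtain ⟨ξ, j, hξ, rfl⟩ := hG
          have h2 : eval x (lin ξ) = ∑ i, ξ i * x i := by
            unfold lin
            simp
          show eval x (lin ξ * _) = 0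
          rw [map_mul, h2, hξ, zero_mul]
        | zero => simp
        | add a b _ _ ha hb =>
          rw [Pi.add_apply, map_add, ha, hb, add_zero]
        | smul a b _ hb =>
          rw [Pi.smul_apply, smul_eval, hb, mul_zero])
      have h3 := Submodule.finrank_mono h1
      omega
    have hd := hD R k K htr n (δ - 1) ι i₀ e (frmT c)
      (fun i => frm_homog fun M => c ⟨i, M⟩) (hNC k n ι e c hc) D D' hD0 hD' hsys hrat {i₁} x p
      hx1 hPt S hS Q
    rcases Nat.lt_or_ge n (Module.finrank K (UtT R i₀ (upT K (frmT c)) x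
      (PQT x fun j => upT K (frmT (Q j)))) + ({i₁} : Finset ι).card) with h | h
    · have h1 := hd.1 (by omega)
      have h2 : (((∑ i, (e i + 1) : ℕ) : ℤ) - n - 1 - (δ - 1 : ℕ)) = 1 := by omega
      rw [h2, one_mul] at h1
      have h3 : (0 : ℤ) ≤ deg k x := Int.natCast_nonneg _
      refine ⟨h3.trans h1, Or.inl ?_⟩
      push_cast
      nlinarith
    · have h0 : Module.finrank K (UtT R i₀ (upT K (frmT c)) x
          (PQT x fun j => upT K (frmT (Q j)))) + ({i₁} : Finset ι).card = n := by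
        omega
      obtain ⟨Q', ξ, τ, l, h1, h2, h3⟩ := hSM R k K n (δ - 1) ι i₀ e
        (upT K (frmT c)) D' {i₁} x hi₀ hsys hPt Q h0
      obtain ⟨y, a, b, h4, h5, h8⟩ := hd.2 h0 Q' ξ τ l h1 h2 h3
      have h7 : (((∑ i, (e i + 1) : ℕ) : ℤ) - n - 1 - ((δ - 1 : ℕ) + 1)) = 0 := by
        omega
      rw [h7, zero_mul, add_zero] at h8
      have h9 : (0 : ℤ) ≤ hln k x y a b := Int.natCast_nonneg _
      refine ⟨h9.trans h8, Or.inr ⟨y, a, b, h4, h5, ?_⟩⟩
      push_cast
      nlinarith [h9.trans h8]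
  · obtain ⟨y, ν, hfun, a0, ha0, hdet⟩ := hD3 R k K htr n (δ - 1) ι i₀ e (by omega) (frmT c)
      (fun i => frm_homog fun M => c ⟨i, M⟩) (hNC k n ι e c hc) D D' hD0 hD' hsys hrat {i₁} x p
      hx1 hPt S hS Q q hQ hq
    have h0 : (0 : ℤ) ≤ canDeg D + S.card := by
      have h1 := hdet Unit (fun _ => q) (fun _ => a0)
      exact (Int.natCast_nonneg _).trans h1
    refine ⟨h0, ?_⟩
    obtain ⟨B, hB⟩ := Int.eq_ofNat_of_zero_le h0
    have hHx : eval x (upT K (frmT c) i₀) ≠ 0 := fun h => hi₀ ((hon i₀).1 h)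
    have hH0 : frmT c i₀ ≠ 0 := by
      intro h
      apply hHx
      show eval x (up K (frmT c i₀)) = 0
      rw [h]
      unfold up
      rw [map_zero, map_zero]
    obtain ⟨w, hw⟩ := exists_one he0 (frm_homog fun M => c ⟨i₀, M⟩) hH0
    obtain ⟨hfh, hdetH⟩ := hRED K n ι i₀ i₁ e (upT K (frmT c)) x y ν hne hall he0
      (fun i => (frm_homog fun M => c ⟨i, M⟩).map _) hfun
    have hwK : eval (fun j => algebraMap k K (w j)) (upT K (frmT c) i₀) = 1 := by
      show eval (fun j => algebraMap k K (w j)) (MvPolynomial.map (algebraMap k K) _) = 1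
      rw [eval_map]
      have h1 := MvPolynomial.eval₂_comp_left (algebraMap k K) (RingHom.id k) w (frmT c i₀)
      have h2 : eval w (frmT c i₀) = 1 := hw
      rw [RingHom.comp_id] at h1
      rw [show (fun j => algebraMap k K (w j)) = (algebraMap k K) ∘ w from rfl, ← h1]
      show algebraMap k K (eval w (frmT c i₀)) = 1
      rw [h2, map_one]
    have hQhom : ∀ q' : (Σ i, Mon (n + 1) (e i)) → k, ∀ i,
        (upT K (frmT q') i).IsHomogeneous (e i) := fun q' i =>
      (frm_homog fun M => q' ⟨i, M⟩).map _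
    have hdetH' := hdetH _ hwK
    have hG0h : (frmT q i₁ - MvPolynomial.C (coeff 0 (frmT q i₀)) * dir w (frmT c i₁)).IsHomogeneous
        (e i₁) := by
      refine IsHomogeneous.sub (frm_homog fun M => q ⟨i₁, M⟩) ?_
      have h1 := (isHomogeneous_C (Fin (n + 1)) (coeff 0 (frmT q i₀))).mul
        (dirHom w (d := e i₁) (frm_homog fun M => c ⟨i₁, M⟩))
      rw [zero_add] at h1
      exact h1
    obtain ⟨q', hq'⟩ : ∃ q' : Mon (n + 1) (e i₁) → k,
        frm q' = frmT q i₁ - MvPolynomial.C (coeff 0 (frmT q i₀)) * dir w (frmT c i₁) :=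
      ⟨_, frm_coeff hG0h⟩
    have hup : up K (frm q') = upT K (frmT q) i₁ -
        MvPolynomial.C (coeff 0 (upT K (frmT q) i₀)) * dir (fun j => algebraMap k K (w j))
          (upT K (frmT c) i₁) := by
      have h1 : coeff 0 (upT K (frmT q) i₀) = algebraMap k K (coeff 0 (frmT q i₀)) :=
        MvPolynomial.coeff_map _ _ _
      have h2 : dir (fun j => algebraMap k K (w j)) (upT K (frmT c) i₁) =
          up K (dir w (frmT c i₁)) := (dirMap w (frmT c i₁)).symm
      rw [h1, h2, hq']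
      unfold up
      rw [map_sub, map_mul, map_C]
      rfl
    have hq0 : ∀ a, det3T x y (upT K (frmT q)) a =
        det3 x (fun b (M : Mon (n + 1) (e i₁ + 1)) => y b ⟨i₁, M⟩) (up K (frm q')) a := by
      intro a
      rw [hdetH' _ (hQhom q) a, hup]
    have hg0 : ∀ (g : Mon (n + 1) (e i₁) → k) a, det3T x y (upT K (frmT (fam i₁ e g))) a =
        det3 x (fun b (M : Mon (n + 1) (e i₁ + 1)) => y b ⟨i₁, M⟩) (up K (frm g)) a := by
      intro g a
      rw [hdetH' _ (hQhom _) a]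
      have h1 : upT K (frmT (fam i₁ e g)) i₁ = up K (frm g) := by
        show up K (frmT (fam i₁ e g) i₁) = up K (frm g)
        rw [frmT_fam]
      have h2 : upT K (frmT (fam i₁ e g)) i₀ = 0 := by
        show up K (frmT (fam i₁ e g) i₀) = 0
        rw [frmT_fam' i₀ i₁ hne]
        unfold up
        rw [map_zero]
      rw [h1, h2, coeff_zero, map_zero, zero_mul, sub_zero]
    have hcomb : AlgebraicIndependent ℚ (Sum.elim
        (fun M : Mon (n + 1) (e i₁ + 1) => c ⟨i₁, M⟩)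
        (fun M : Mon (n + 1) (e i₀ + 1) => c ⟨i₀, M⟩)) := by
      have h1 := hc.comp (Sum.elim
        (fun M : Mon (n + 1) (e i₁ + 1) => (⟨i₁, M⟩ : Σ i, Mon (n + 1) (e i + 1)))
        (fun M : Mon (n + 1) (e i₀ + 1) => (⟨i₀, M⟩ : Σ i, Mon (n + 1) (e i + 1)))) (by
        rintro (M | M) (M' | M') h
        · simpa using h
        · exact absurd (congrArg Sigma.fst h).symm hne
        · exact absurd (congrArg Sigma.fst h) hne
        · simpa using h)
      have h2 : (Sum.elim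
        (fun M : Mon (n + 1) (e i₁ + 1) => c ⟨i₁, M⟩)
        (fun M : Mon (n + 1) (e i₀ + 1) => c ⟨i₀, M⟩)) = c ∘ (Sum.elim
        (fun M : Mon (n + 1) (e i₁ + 1) => (⟨i₁, M⟩ : Σ i, Mon (n + 1) (e i + 1)))
        (fun M : Mon (n + 1) (e i₀ + 1) => (⟨i₀, M⟩ : Σ i, Mon (n + 1) (e i + 1)))) := by
        funext M
        rcases M with M | M <;> rfl
      rw [h2]
      exact h1
    have hF0 : eval x (upT K (frmT c) i₁) = 0 :=
      (hon i₁).2 (Finset.mem_singleton_self i₁)
    rw [hq0 a0] at ha0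
    have hfin := hC k K htr (e i₀) he0 (fun M => c ⟨i₁, M⟩) (fun M => c ⟨i₀, M⟩) hcomb x p hx1
      hF0 hHx (fun b (M : Mon (n + 1) (e i₁ + 1)) => y b ⟨i₁, M⟩) ν hfh q' a0 ha0 B
      (fun M M' a => by
        have h1 := hdet (Fin 1) (fun _ => fam i₁ e (Pi.single M 1 + Pi.single M' 1))
          (fun _ => a)
        rw [hq0 a0, hg0, up_two] at h1
        rw [hB] at h1
        exact_mod_cast h1)
      hconic
    rcases hfin with h | ⟨z, a, b, h1, h2, h3⟩
    · left
      rw [hB]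
      have h1 : ((deg k x : ℕ) : ℤ) ≤ C * B := by exact_mod_cast h
      push_cast
      nlinarith [Int.natCast_nonneg B]
    · right
      refine ⟨z, a, b, h1, h2, ?_⟩
      rw [hB]
      have h4 : ((hln k x z a b : ℕ) : ℤ) ≤ C * B := by exact_mod_cast h3
      push_cast
      nlinarith [Int.natCast_nonneg B]

theorem pf_MNBH (hAL : T_ALBH) (hE : Pool.Agent.H17.VG.T_E) (hROT : T_ROT) (hTR : T_TRT) :
    T_MNBH := by
  classical
  intro n ι _ i₀ i₁ e δ hδ hn hne hall he0 he1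
  obtain ⟨C, hC⟩ := hAL n ι i₀ i₁ e δ hδ hn hne hall he0 he1
  choose C1 hC1 using hROT n
  obtain ⟨C2, hC2⟩ := hE n (∑ i ∈ Finset.univ \ ({i₁} : Finset ι), (e i + 1))
  refine ⟨C + (∑ i, C1 (e i + 1)) * C + C2 * (1 + C), ?_⟩
  intro k _ _ _ c hc K _ _ _ htr D hD x p hx1 hx hon hline hconic S hS
  have hcK : CharZero K := charZero_of_injective_algebraMap (algebraMap k K).injective
  obtain ⟨h0, h⟩ := hC k c hc K htr D hD x p hx1 hx hon hline hconic S hS
  have i0 : (0 : ℤ) ≤ C := Int.natCast_nonneg C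
  have i1 : (0 : ℤ) ≤ ((∑ i, C1 (e i + 1) : ℕ) : ℤ) := Int.natCast_nonneg _
  have i2 : (0 : ℤ) ≤ C2 := Int.natCast_nonneg C2
  obtain ⟨χ, hχ⟩ : ∃ χ : ℤ, χ = canDeg D + S.card := ⟨_, rfl⟩
  rw [← hχ] at h0 h ⊢
  have j0 : 0 ≤ (C : ℤ) * χ := mul_nonneg i0 h0
  have j1 : 0 ≤ ((∑ i, C1 (e i + 1) : ℕ) : ℤ) * C * χ := mul_nonneg (mul_nonneg i1 i0) h0
  have j2 : 0 ≤ (C2 : ℤ) * (1 + C) * χ := mul_nonneg (mul_nonneg i2 (by linarith)) h0
  have hsum : (((C + (∑ i, C1 (e i + 1)) * C + C2 * (1 + C) : ℕ) : ℤ)) * χ =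
      C * χ + ((∑ i, C1 (e i + 1) : ℕ) : ℤ) * C * χ + C2 * (1 + C) * χ := by
    rw [Nat.cast_add, Nat.cast_add, Nat.cast_mul, Nat.cast_mul, Nat.cast_add, Nat.cast_one]
    ring
  rw [hsum]
  rcases h with h | ⟨y, a, b, hxy, h2, h3⟩
  · linarith
  · have h4 : (0 : ℤ) ≤ hln k x y a b := Int.natCast_nonneg _
    rcases hTR K n ι e {i₁} (upT K (frmT c)) x y
      (fun i => (frm_homog fun M => c ⟨i, M⟩).map _) hxy hon (hline y hxy) with h6 | h6
    · obtain ⟨i, hi, hres⟩ := h6
      have h7 := hC1 (e i + 1) k K htr (frmT c i) (frm_homog fun M => c ⟨i, M⟩) x y p a b hx1 hxy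
        h2 ((hon i).2 hi) hres
      have h8 : ((C1 (e i + 1) : ℕ) : ℤ) ≤ ((∑ i, C1 (e i + 1) : ℕ) : ℤ) := by
        exact_mod_cast Finset.single_le_sum (f := fun i => C1 (e i + 1))
          (fun _ _ => Nat.zero_le _) (Finset.mem_univ i)
      have h9 : ((C1 (e i + 1) : ℕ) : ℤ) * hln k x y a b ≤
          ((∑ i, C1 (e i + 1) : ℕ) : ℤ) * (C * χ) := mul_le_mul h8 h3 h4 i1
      have h10 : ((∑ i, C1 (e i + 1) : ℕ) : ℤ) * (C * χ) =
          ((∑ i, C1 (e i + 1) : ℕ) : ℤ) * C * χ := by ring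
      linarith
    · have hup : up K (∏ i ∈ Finset.univ \ ({i₁} : Finset ι), frmT c i) =
          ∏ i ∈ Finset.univ \ ({i₁} : Finset ι), upT K (frmT c) i := by
        unfold upT up
        rw [map_prod]
      have hhom : (∏ i ∈ Finset.univ \ ({i₁} : Finset ι), frmT c i).IsHomogeneous
          (∑ i ∈ Finset.univ \ ({i₁} : Finset ι), (e i + 1)) :=
        IsHomogeneous.prod _ _ _ fun i _ => frm_homog fun M => c ⟨i, M⟩
      have hne0 : ∀ i ∈ Finset.univ \ ({i₁} : Finset ι), eval x (upT K (frmT c) i) ≠ 0 := by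
        intro i hi h0
        exact (Finset.mem_sdiff.1 hi).2 ((hon i).1 h0)
      have hev : eval x (up K (∏ i ∈ Finset.univ \ ({i₁} : Finset ι), frmT c i)) =
          ∏ i ∈ Finset.univ \ ({i₁} : Finset ι), eval x (upT K (frmT c) i) := by
        rw [hup, map_prod]
      have hF : eval x (up K (∏ i ∈ Finset.univ \ ({i₁} : Finset ι), frmT c i)) ≠ 0 := by
        rw [hev]
        exact Finset.prod_ne_zero_iff.2 hne0
      have h7 := hC2 k K htr D hD _ hhom x y p a b hx1 hxy h2 hF (by rw [hup]; exact h6) S (by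
        intro v hv
        rw [hev, v.ord_prod _ _ hne0]
        rw [Finset.sum_congr rfl fun i hi => hS v hv i (Finset.mem_sdiff.1 hi).2]
        rw [Finset.sum_neg_distrib, ← Finset.sum_mul]
        push_cast
        rfl) (by rw [← hχ]; exact h0)
      rw [← hχ] at h7
      have h8 : (C2 : ℤ) * (χ + hln k x y a b) ≤ C2 * (χ + C * χ) :=
        mul_le_mul_of_nonneg_left (by linarith) i2
      have h9 : (C2 : ℤ) * (χ + C * χ) = C2 * (1 + C) * χ := by ring
      linarith

end Pool.Agent.H17.AH
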