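import Pool.Agent.H17.AH.TargetsD
import Pool.Agent.H17.BO.CMP

/-!
# MP_70ba79_ag, board `ahy_modules`: row CMPH (the algebraic theorem with heights)
-/

set_option autoImplicit false

namespace Pool.Agent.H17.AH

open MvPolynomial SC Pool.Agent.H27.LV Pool.Agent.H17.VG
open Pool.Agent.H30.VM Pool.Agent.H17.BO

/-- linear independence passes to the ultraproduct -/
lemma ind_ultra {K : ℕ → Type} [∀ i, Field (K i)] {L : Type} [Field L] (π : (∀ i, K i) →+* L)
    (hsurj : Function.Surjective π)
    (hker : ∀ f, π f = 0 ↔ ∀ᶠ i in (Filter.hyperfilter ℕ : Filter ℕ), f i = 0)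
    {κ : Type} [Fintype κ] {m : ℕ} (v : κ → Fin m → ∀ i, K i)
    (h : ∀ i, LinearIndependent (K i) fun t a => v t a i) :
    LinearIndependent L fun t a => π (v t a) := by
  classical
  rw [Fintype.linearIndependent_iff]
  intro g hg t
  by_contra ht
  choose G hG using fun t => hsurj (g t)
  have h1 : ∀ a : Fin m, ∀ᶠ i in (Filter.hyperfilter ℕ : Filter ℕ),
      ∑ t, G t i * v t a i = 0 := by
    intro a
    have h2 := congrFun hg a
    rw [Finset.sum_apply, Pi.zero_apply] at h2
    have h3 : π (∑ t, G t * v t a) = 0 := by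
      rw [map_sum, ← h2]
      refine Finset.sum_congr rfl fun t _ => ?_
      rw [map_mul, hG, Pi.smul_apply, smul_eq_mul]
    have h4 := (hker _).1 h3
    refine h4.mono fun i hi => ?_
    rw [Finset.sum_apply] at hi
    exact hi
  have h5 : ∀ᶠ i in (Filter.hyperfilter ℕ : Filter ℕ), G t i ≠ 0 := by
    rw [← hG t] at ht
    have h6 : ¬ ∀ᶠ i in (Filter.hyperfilter ℕ : Filter ℕ), G t i = 0 := fun h7 =>
      ht ((hker _).2 h7)
    exact (Ultrafilter.eventually_not (f := Filter.hyperfilter ℕ)).2 h6
  obtain ⟨i, hi, hi2⟩ := ((Filter.eventually_all.2 h1).and h5).exists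
  have h6 := Fintype.linearIndependent_iff.1 (h i) (fun t => G t i) (by
    funext a
    rw [Finset.sum_apply, Pi.zero_apply, ← hi a]
    rfl) t
  exact hi2 h6

/-- the directional derivative over a ring -/
noncomputable def dirR {R : Type} [CommRing R] {n : ℕ} (w : Fin (n + 1) → R)
    (G : MvPolynomial (Fin (n + 1)) R) : MvPolynomial (Fin (n + 1)) R :=
  ∑ i, C (w i) * pderiv i G

lemma map_dirR {R S : Type} [CommRing R] [CommRing S] {n : ℕ} (φ : R →+* S)
    (w : Fin (n + 1) → R) (G : MvPolynomial (Fin (n + 1)) R) :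
    MvPolynomial.map φ (dirR w G) = dirR (fun j => φ (w j)) (MvPolynomial.map φ G) := by
  unfold dirR
  rw [map_sum]
  refine Finset.sum_congr rfl fun j _ => ?_
  rw [map_mul, map_C, pderiv_map]

/-- a counterexample with the constant `C` -/
structure HEx (n e C : ℕ) where
  k : Type
  K : Type
  [ik : Field k]
  [iac : IsAlgClosed k]
  [icz : CharZero k]
  [iK : Field K]
  [ia : Algebra k K]
  [iess : Algebra.EssFiniteType k K]
  htr : Algebra.trdeg k K = 1
  c : Mon (n + 1) (e + 1) → k
  cH : Mon (n + 1) (0 + 1) → k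
  hc : AlgebraicIndependent ℚ (Sum.elim c cH)
  x : Fin (n + 1) → K
  p : Fin (n + 1)
  hp : x p = 1
  hF : eval x (up K (frm c)) = 0
  hH : eval x (up K (frm cH)) ≠ 0
  y : Fin 2 → Mon (n + 1) (e + 1) → K
  ν : Fin 2 → Fin (n + 1) → K
  hfun : FunH (up K (frm c)) (up K (frm cH)) x y ν
  q : Mon (n + 1) e → k
  a0 : Fin 3 → Fin (n + 1)
  ha0 : det3 x y (up K (frm q)) a0 ≠ 0
  B : ℕ
  hB : ∀ (M M' : Mon (n + 1) e) (a : Fin 3 → Fin (n + 1)),
    h1 k (det3 x y (frm (Pi.single M 1 + Pi.single M' 1)) a / det3 x y (up K (frm q)) a0) ≤ B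
  hnc : ∀ b c', LinearIndependent K ![x, b, c'] → res2 x b c' (up K (frm c)) ≠ 0
  hnot : ¬ (deg k x ≤ C * B ∨
    ∃ (z : Fin (n + 1) → K) (a b : Fin (n + 1)), Indep x z ∧ x a * z b - x b * z a ≠ 0 ∧
      hln k x z a b ≤ C * B)

attribute [instance] HEx.ik HEx.iac HEx.icz HEx.iK HEx.ia HEx.iess

theorem pf_CMPH (hHTA : T_HTA) (hULT : T_ULT) (hKLV : T_KLVH) (hTFL : T_TFL) (hTFE : T_TFE) :
    T_CMPH := by
  classical
  intro n e he
  by_contra hcon
  have hne : ∀ C, Nonempty (HEx n e C) := by
    intro C
    by_contra hemp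
    apply hcon
    refine ⟨C, ?_⟩
    intro k K _ _ _ _ _ _ htr e₀ he₀ c cH hc x p hp hF hH y ν hfun q a0 ha0 B hB hnc
    subst he₀
    by_contra hnot
    refine hemp ⟨?_⟩
    exact
      { k := k, K := K, htr := htr, c := c, cH := cH, hc := hc, x := x, p := p, hp := hp,
        hF := hF, hH := hH, y := y, ν := ν, hfun := hfun, q := q, a0 := a0, ha0 := ha0, B := B,
        hB := hB, hnc := hnc, hnot := hnot }
  obtain ⟨X⟩ : Nonempty (∀ C, HEx n e C) := ⟨fun C => (hne C).some⟩
  have hcz : ∀ i, CharZero (X i).K := fun i =>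
    charZero_of_injective_algebraMap (algebraMap (X i).k (X i).K).injective
  obtain ⟨L, iL, iLz, k', ik', ik'z, ia', π, hsurj, hker, hrange, hac⟩ :=
    hULT (fun i => (X i).k) (fun i => (X i).K) (fun i => (X i).htr) (fun i => (X i).B)
  -- constants
  have hconst : ∀ f : ∀ i, (X i).k, ∃ r : k', algebraMap k' L r =
      π fun i => algebraMap (X i).k (X i).K (f i) := by
    intro f
    obtain ⟨r, hr⟩ := (hrange fun i => algebraMap (X i).k (X i).K (f i)).2
      ⟨0, Filter.Eventually.of_forall fun i => by
        have := (hHTA (X i).k (X i).K (X i).htr 0 0).2.2.2.1 (f i)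
        rw [this]; exact Nat.zero_le _⟩
    exact ⟨r, hr⟩
  choose c' hc' using fun M => hconst fun i => (X i).c M
  choose cH' hcH' using fun M => hconst fun i => (X i).cH M
  choose q' hq' using fun M => hconst fun i => (X i).q M
  -- algebraic independence
  have hcind : AlgebraicIndependent ℚ (Sum.elim c' cH') := by
    rw [algebraicIndependent_iff]
    intro P hP
    set g : (∀ i, (X i).k) →+* L := π.comp
      (RingHom.pi fun i => (algebraMap (X i).k (X i).K).comp (Pi.evalRingHom _ i)) with hg
    have h1 : g.toRatAlgHom (aeval (fun M => (fun i => Sum.elim (X i).c (X i).cH M :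
        ∀ i, (X i).k)) P) = 0 := by
      rw [comp_aeval_apply]
      have h2 : (fun M => g.toRatAlgHom (fun i => Sum.elim (X i).c (X i).cH M :
          ∀ i, (X i).k)) =
          fun M => (algebraMap k' L).toRatAlgHom (Sum.elim c' cH' M) := by
        funext M
        rcases M with M | M
        · exact (hc' M).symm
        · exact (hcH' M).symm
      rw [h2, ← comp_aeval_apply, hP, map_zero]
    have h3 : π (fun i => algebraMap (X i).k (X i).K
        ((aeval (fun M => (fun i => Sum.elim (X i).c (X i).cH M : ∀ i, (X i).k)) P :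
          ∀ i, (X i).k) i)) = 0 := h1
    rw [hker] at h3
    obtain ⟨i, hi⟩ := h3.exists
    have h4 : (aeval (fun M => (fun i => Sum.elim (X i).c (X i).cH M : ∀ i, (X i).k)) P :
        ∀ i, (X i).k) i = 0 :=
      (map_eq_zero _).1 hi
    have h5 : aeval (fun M => Sum.elim (X i).c (X i).cH M) P = 0 := by
      have h6 := comp_aeval_apply (Pi.evalAlgHom ℚ (fun i => (X i).k) i)
        (f := fun M => (fun i => Sum.elim (X i).c (X i).cH M : ∀ i, (X i).k)) P
      rw [← h4]
      exact h6.symm
    exact (algebraicIndependent_iff.1 (X i).hc) P h5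
  -- the data over `L`
  set x : Fin (n + 1) → L := fun j => π fun i => (X i).x j with hx
  set y : Fin 2 → Mon (n + 1) (e + 1) → L := fun b M => π fun i => (X i).y b M with hy
  set ν : Fin 2 → Fin (n + 1) → L := fun b a => π fun i => (X i).ν b a with hν
  -- transfer of determinants
  have hdet : ∀ (Q : ∀ i, MvPolynomial (Fin (n + 1)) (X i).K)
      (t : Mon (n + 1) e → ∀ i, (X i).K) (hQ : ∀ i, Q i = frmR fun M => t M i)
      (a : Fin 3 → Fin (n + 1)),
      det3 x y (frmR fun M => π (t M)) a = π fun i => det3 (X i).x (X i).y (Q i) a := by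
    intro Q t hQ a
    have h1 := map_det3R π (fun j => (fun i => (X i).x j : ∀ i, (X i).K))
      (fun b M => (fun i => (X i).y b M : ∀ i, (X i).K)) (frmR t) a
    have h2 : det3R (fun j => (fun i => (X i).x j : ∀ i, (X i).K))
        (fun b M => (fun i => (X i).y b M : ∀ i, (X i).K)) (frmR t) a =
        fun i => det3 (X i).x (X i).y (Q i) a := by
      funext i
      have h3 := map_det3R (Pi.evalRingHom (fun i => (X i).K) i)
        (fun j => (fun i => (X i).x j : ∀ i, (X i).K))
        (fun b M => (fun i => (X i).y b M : ∀ i, (X i).K)) (frmR t) a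
      rw [map_frmR] at h3
      rw [hQ]
      exact h3
    rw [h2, map_frmR] at h1
    exact h1.symm
  obtain ⟨FF, hFF⟩ : ∃ FF : MvPolynomial (Fin (n + 1)) (∀ i, (X i).K), FF =
      frmR fun M => (fun i => algebraMap (X i).k (X i).K ((X i).c M) : ∀ i, (X i).K) :=
    ⟨_, rfl⟩
  obtain ⟨HH, hHH⟩ : ∃ HH : MvPolynomial (Fin (n + 1)) (∀ i, (X i).K), HH =
      frmR fun M => (fun i => algebraMap (X i).k (X i).K ((X i).cH M) : ∀ i, (X i).K) :=
    ⟨_, rfl⟩
  have hFL : up L (frm c') = MvPolynomial.map π FF := by
    rw [hFF, up_frmR, map_frmR]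
    congr 1
    funext M
    exact hc' M
  have hFi : ∀ i, up (X i).K (frm (X i).c) =
      MvPolynomial.map (Pi.evalRingHom (fun i => (X i).K) i) FF := by
    intro i
    rw [hFF, up_frmR, map_frmR]
    rfl
  have hHL : up L (frm cH') = MvPolynomial.map π HH := by
    rw [hHH, up_frmR, map_frmR]
    congr 1
    funext M
    exact hcH' M
  have hHi : ∀ i, up (X i).K (frm (X i).cH) =
      MvPolynomial.map (Pi.evalRingHom (fun i => (X i).K) i) HH := by
    intro i
    rw [hHH, up_frmR, map_frmR]
    rfl
  -- values of polynomials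
  have hev : ∀ (G : MvPolynomial (Fin (n + 1)) (∀ i, (X i).K))
      (w : Fin (n + 1) → ∀ i, (X i).K), eval (fun j => π (w j)) (MvPolynomial.map π G) =
      π fun i => eval (fun j => w j i)
        (MvPolynomial.map (Pi.evalRingHom (fun i => (X i).K) i) G) := by
    intro G w
    rw [← map_evalR π w G]
    congr 1
    funext i
    exact map_evalR (Pi.evalRingHom (fun i => (X i).K) i) w G
  -- values of functionals
  have hfn : ∀ (b : Fin 2) (G : MvPolynomial (Fin (n + 1)) (∀ i, (X i).K)),
      fnl (y b) (MvPolynomial.map π G) = π fun i => fnl ((X i).y b)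
        (MvPolynomial.map (Pi.evalRingHom (fun i => (X i).K) i) G) := by
    intro b G
    have h2 := map_fnlR π (fun M => (fun i => (X i).y b M : ∀ i, (X i).K)) G
    have h3 : fnlR (fun M => (fun i => (X i).y b M : ∀ i, (X i).K)) G = fun i =>
        fnl ((X i).y b) (MvPolynomial.map (Pi.evalRingHom (fun i => (X i).K) i) G) := by
      funext i
      exact map_fnlR (Pi.evalRingHom (fun i => (X i).K) i)
        (fun M => (fun i => (X i).y b M : ∀ i, (X i).K)) G
    rw [h3] at h2
    exact h2.symm
  have hfun : FunH (up L (frm c')) (up L (frm cH')) x y ν := by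
    refine ⟨?_, ?_, ?_, ?_⟩
    · have h1 := ind_ultra π hsurj hker
        (![fun a => (fun i => (X i).ν 0 a), fun a => (fun i => (X i).ν 1 a),
          fun a => (fun i => eval (X i).x (pderiv a (up (X i).K (frm (X i).c))))] :
            Fin 3 → Fin (n + 1) → ∀ i, (X i).K) (fun i => by
          have h2 := (X i).hfun.ind
          have h3 : (fun (t : Fin 3) (a : Fin (n + 1)) =>
              (![fun a => (fun i => (X i).ν 0 a), fun a => (fun i => (X i).ν 1 a),
              fun a => (fun i => eval (X i).x (pderiv a (up (X i).K (frm (X i).c))))] :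
              Fin 3 → Fin (n + 1) → ∀ i, (X i).K) t a i) =
              ![(X i).ν 0, (X i).ν 1,
                fun a => eval (X i).x (pderiv a (up (X i).K (frm (X i).c)))] := by
            funext t a
            fin_cases t <;> rfl
          rw [h3]
          exact h2)
      have h4 : (fun (t : Fin 3) (a : Fin (n + 1)) => π
          ((![fun a => (fun i => (X i).ν 0 a), fun a => (fun i => (X i).ν 1 a),
            fun a => (fun i => eval (X i).x (pderiv a (up (X i).K (frm (X i).c))))] :
            Fin 3 → Fin (n + 1) → ∀ i, (X i).K) t a)) =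
          ![ν 0, ν 1, fun a => eval x (pderiv a (up L (frm c')))] := by
        funext t a
        fin_cases t
        · rfl
        · rfl
        · show π (fun i => eval (X i).x (pderiv a (up (X i).K (frm (X i).c)))) =
            eval x (pderiv a (up L (frm c')))
          have h5 := hev (pderiv a FF) (fun j => (fun i => (X i).x j : ∀ i, (X i).K))
          rw [← pderiv_map, ← hFL] at h5
          rw [h5]
          congr 1
          funext i
          rw [hFi, pderiv_map]
      rw [h4] at h1
      exact h1
    · intro b j w hw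
      choose W hW using fun a => hsurj (w a)
      have hw' : w = fun a => π (W a) := funext fun a => (hW a).symm
      have h1 : ∀ᶠ i in (Filter.hyperfilter ℕ : Filter ℕ),
          eval (fun a => W a i) (up (X i).K (frm (X i).cH)) = 0 := by
        rw [hw', hHL, hev HH W] at hw
        refine ((hker _).1 hw).mono fun i hi => ?_
        rw [hHi]
        exact hi
      have h2 : ∀ᶠ i in (Filter.hyperfilter ℕ : Filter ℕ),
          fnl ((X i).y b) (MvPolynomial.X j * dir (fun a => W a i) (up (X i).K (frm (X i).c))) +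
          (X i).x j * ∑ a, (X i).ν b a * W a i = 0 := by
        refine h1.mono fun i hi => ?_
        rw [(X i).hfun.grad b j _ hi]
        ring
      have h3 := (hker _).2 h2
      have h4 := hfn b (MvPolynomial.X j * dirR W FF)
      rw [map_mul, map_X, map_dirR, ← hFL] at h4
      have h5 : (fun i => fnl ((X i).y b)
          (MvPolynomial.X j * dir (fun a => W a i) (up (X i).K (frm (X i).c))) +
          (X i).x j * ∑ a, (X i).ν b a * W a i : ∀ i, (X i).K) =
          (fun i => fnl ((X i).y b) (MvPolynomial.map (Pi.evalRingHom (fun i => (X i).K) i)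
            (MvPolynomial.X j * dirR W FF))) +
          (fun i => (X i).x j) * ∑ a, (fun i => (X i).ν b a) * W a := by
        funext i
        rw [Pi.add_apply, Pi.mul_apply, Finset.sum_apply, map_mul, map_X, map_dirR, ← hFi]
        rfl
      rw [h5, map_add, map_mul, map_sum, ← h4] at h3
      rw [hw']
      have h6 : ∑ a, π ((fun i => (X i).ν b a : ∀ i, (X i).K) * W a) =
          ∑ a, ν b a * π (W a) := by
        refine Finset.sum_congr rfl fun a _ => ?_
        rw [map_mul]
      rw [h6] at h3
      exact eq_neg_of_add_eq_zero_left h3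
    · intro b
      rw [hFL, hfn b FF]
      have h1 : (fun i => fnl ((X i).y b)
          (MvPolynomial.map (Pi.evalRingHom (fun i => (X i).K) i) FF)) =
          (0 : ∀ i, (X i).K) := by
        funext i
        rw [← hFi]
        exact (X i).hfun.mul b
      rw [h1, map_zero]
    · intro b
      have h1 : ∑ j, (fun i => (X i).ν b j : ∀ i, (X i).K) *
          (fun i => (X i).x j : ∀ i, (X i).K) = 0 := by
        funext i
        rw [Finset.sum_apply]
        exact (X i).hfun.orth b
      have h2 := congrArg π h1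
      rw [map_sum, map_zero] at h2
      rw [← h2]
      refine Finset.sum_congr rfl fun j _ => ?_
      rw [map_mul]
  have hF : eval x (up L (frm c')) = 0 := by
    rw [hFL]
    have h1 := hev FF (fun j => (fun i => (X i).x j : ∀ i, (X i).K))
    have h2 : (fun i => eval (fun j => (X i).x j)
        (MvPolynomial.map (Pi.evalRingHom (fun i => (X i).K) i) FF)) = (0 : ∀ i, (X i).K) := by
      funext i
      rw [← hFi]
      exact (X i).hF
    rw [h2, map_zero] at h1
    exact h1
  have hH : eval x (up L (frm cH')) ≠ 0 := by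
    intro h0
    rw [hHL] at h0
    have h1 := hev HH (fun j => (fun i => (X i).x j : ∀ i, (X i).K))
    have h2 := (hker _).1 (h1.symm.trans h0)
    obtain ⟨i, hi⟩ := h2.exists
    rw [← hHi] at hi
    exact (X i).hH hi
  -- kappa
  set κf : ∀ i, (X i).K := fun i => det3 (X i).x (X i).y (up (X i).K (frm (X i).q)) (X i).a0
    with hκf
  have hmon : ∀ (M M' : Mon (n + 1) e) (a : Fin 3 → Fin (n + 1)), ∃ r : k',
      det3 x y (frm (Pi.single M 1 + Pi.single M' 1)) a = π κf * algebraMap k' L r := by
    intro M M' a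
    obtain ⟨r, hr⟩ := (hrange fun i => det3 (X i).x (X i).y
      (frm (Pi.single M 1 + Pi.single M' 1)) a / κf i).2
      ⟨1, Filter.Eventually.of_forall fun i => by rw [one_mul]; exact (X i).hB M M' a⟩
    refine ⟨r, ?_⟩
    rw [hr, ← map_mul]
    have h1 := hdet (fun i => frm (Pi.single M 1 + Pi.single M' 1))
      (Pi.single M 1 + Pi.single M' 1) (fun i => by
        unfold frm frmR mono
        refine Finset.sum_congr rfl fun N _ => ?_
        congr 2
        simp only [Pi.add_apply, Pi.single_apply]
        split_ifs <;> simp) a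
    have h2 : (frmR fun N => π ((Pi.single M 1 + Pi.single M' 1 :
        Mon (n + 1) e → ∀ i, (X i).K) N)) = frm (Pi.single M 1 + Pi.single M' 1) := by
      unfold frm frmR mono
      refine Finset.sum_congr rfl fun N _ => ?_
      congr 2
      simp only [Pi.add_apply, Pi.single_apply, map_add]
      split_ifs <;> simp
    rw [h2] at h1
    rw [h1]
    congr 1
    funext i
    have h3 : κf i ≠ 0 := (X i).ha0
    simp only [Pi.mul_apply]
    field_simp
  have hq0 : ∃ (Q : Mon (n + 1) e → k') (a : Fin 3 → Fin (n + 1)),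
      det3 x y (up L (frm Q)) a ≠ 0 := by
    refine ⟨q', ?_⟩
    by_contra hall
    push Not at hall
    have h1 : ∀ a : Fin 3 → Fin (n + 1), ∀ᶠ i in (Filter.hyperfilter ℕ : Filter ℕ),
        det3 (X i).x (X i).y (up (X i).K (frm (X i).q)) a = 0 := by
      intro a
      have h2 := hdet (fun i => up (X i).K (frm (X i).q))
        (fun M => (fun i => algebraMap (X i).k (X i).K ((X i).q M))) (fun i => up_frmR _) a
      have h3 : up L (frm q') = frmR fun M =>
          π ((fun i => algebraMap (X i).k (X i).K ((X i).q M) : ∀ i, (X i).K)) := by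
        rw [up_frmR]
        congr 1
        funext M
        exact hq' M
      rw [← h3, hall a] at h2
      exact (hker _).1 h2.symm
    obtain ⟨i, hi⟩ := (Filter.eventually_all.2 h1).exists
    exact (X i).ha0 (hi _)
  have hge : ∀ N : ℕ, ∀ᶠ i in (Filter.hyperfilter ℕ : Filter ℕ), N ≤ i := fun N =>
    (Filter.eventually_ge_atTop N).filter_mono Nat.hyperfilter_le_atTop
  rcases hKLV k' L hac n e 0 he rfl c' cH' hcind x y ν hfun hF hH (π κf) hmon hq0 with h | h
  · obtain ⟨N, hN⟩ := hTFL (fun i => (X i).k) (fun i => (X i).K) (fun i => (X i).htr)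
      (fun i => (X i).B) L k' π hsurj hker hrange n (fun i => (X i).x) (fun i => (X i).p)
      (fun i => (X i).hp) h
    obtain ⟨i, hi, hi2⟩ := (hN.and (hge N)).exists
    apply (X i).hnot
    have h4 : N * (X i).B ≤ i * (X i).B := Nat.mul_le_mul_right _ hi2
    rcases hi with h3 | ⟨z, a, b, h1, h2, h3⟩
    · exact Or.inl (h3.trans h4)
    · exact Or.inr ⟨z, a, b, h1, h2, h3.trans h4⟩
  · obtain ⟨B, C, hBC, hres⟩ := h
    have h1 := hTFE (fun i => (X i).k) (fun i => (X i).K) L k' π hsurj hker n (e + 1)
      (fun i => (X i).x) (fun i => (X i).c) c' hc' ⟨B, C, hBC, 0, 0, 2 * (e + 1), 0, by omega, by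
        show (res2 x B C (up L (frm c'))).map _ = _ * _ * _
        rw [hres, Polynomial.map_zero]
        show (0 : Polynomial (AlgebraicClosure L)) = Polynomial.C (algebraMap L
          (AlgebraicClosure L) (eval x (up L (frm c')))) * _ * _
        rw [hF, map_zero, map_zero, zero_mul, zero_mul]⟩
    obtain ⟨i, b, c'', h2, α, β, i1, j1, -, h3⟩ := h1.exists
    refine (X i).hnc b c'' h2 ?_
    rw [(X i).hF, map_zero, map_zero, zero_mul, zero_mul] at h3
    exact (Polynomial.map_eq_zero _).1 h3

end Pool.Agent.H17.AH
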