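import Pool.Agent.H17.AH.Defs
import Pool.Agent.H17.BO.TargetsX
import Pool.Agent.H17.CI.TargetsX
import Pool.Agent.H30.VM.TargetsG

/-!
# MP_70ba79_ag: targets of the board `ahy_modules`, part X (the exceptional set)

Compare `Pool/Agent/H17/BO/TargetsX.lean`, `Pool/Agent/H17/CI/TargetsX.lean` and part X of
`Pool/Agent/H30/VM/TargetsG.lean`.
-/

set_option autoImplicit false

namespace Pool.Agent.H17.AH

open MvPolynomial SC Pool.Agent.H27.LV Pool.Agent.H17.VG
open Pool.Agent.H30.VM Pool.Agent.H17.BO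
open Pool.Agent.H17.CI (Tup IlT PQT TxT frmT upT RatT)

/-- XMCH: no conics on the hypersurface through general points: dimension count. Apply the
derivation `θ` of `Pool.Agent.H17.CI.T_XDD` (`θ c = g`, `θ x_b = 0` for `b` in `B`) to
`F (x + T b + T ^ 2 c') = 0` (`Pool.Agent.H17.BO.T_DR2`): every `res2 x b c' G`, so by
`Pool.Agent.H17.BO.T_RS2` every polynomial of degree at most `2 d`, is a combination of
`res2 (∂_a F)` (`a` the coordinate not in `B`), `T res2 (∂_l F)` and `T ^ 2 res2 (∂_l F)`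
(`l = 0, …, n`). There is the relation `T res2 (∂_b F) + 2 T ^ 2 res2 (∂_c' F) = 0` (derivative of
`res2 F = 0` with respect to `T`). So `2 d + 1 ≤ 2 (n + 1) + 1 - 1`. -/
def T_XMCH : Prop := ∀ (k L : Type) [Field k] [CharZero k] [Field L] [Algebra k L] (n d : ℕ),
  n + 1 ≤ d → ∀ c : Mon (n + 1) d → k, AlgebraicIndependent ℚ c →
  ∀ (x b c' : Fin (n + 1) → L) (B : Finset (Fin n)), x 0 = 1 →
  AlgebraicIndependent k (fun b : B => x b.1.succ) → B.card + 1 = n →
  LinearIndependent L ![x, b, c'] → res2 x b c' (up L (frm c)) ≠ 0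

/-- XPCH: the conics on `F = 0` through `(1, x)` are given by polynomial equations (`z` is the
inverse of a minor) -/
def T_XPCH : Prop := ∀ (k : Type) [Field k] (n : ℕ) (F : MvPolynomial (Fin (n + 1)) k)
  (s : Fin 3 → Fin (n + 1)),
  ∃ I : Set (MvPolynomial (Fin n ⊕ ((Fin (n + 1) ⊕ Fin (n + 1)) ⊕ Unit)) k),
    ∀ (K : Type) [Field K] [Algebra k K] (x : Fin n → K) (b c' : Fin (n + 1) → K) (z : K),
    (∀ f ∈ I, aeval (Sum.elim x (Sum.elim (Sum.elim b c') fun _ => z)) f = 0) ↔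
      (Matrix.of fun u v : Fin 3 => (![(Fin.cons 1 x : Fin (n + 1) → K), b, c'] :
        Fin 3 → Fin (n + 1) → K) u (s v)).det * z = 1 ∧
      res2 (Fin.cons 1 x : Fin (n + 1) → K) b c' (up K F) = 0

/-- XFH: the exceptional lines and the conics on the hypersurface do not cover it. (As
`Pool.Agent.H30.VM.T_XFT`: product of the polynomials of `Pool.Agent.H17.CI.T_XEL` for the point of
`Pool.Agent.H17.CI.T_GPT`, for the lines and for the conics; T_XMCH excludes conics through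
generic points. A point with `x 0 = 0` is a zero of `X 0`; a point `x` with `x 0 ≠ 0` is replaced
by `x / x 0`, a conic through `x` then by the same multiple.) -/
def T_XFH : Prop := ∀ (k : Type) [Field k] [IsAlgClosed k] [CharZero k] (n : ℕ) (ι : Type)
  [Fintype ι] (i₀ i₁ : ι) (e : ι → ℕ) (c : (Σ i, Mon (n + 1) (e i + 1)) → k), i₀ ≠ i₁ →
  (∀ i, i = i₀ ∨ i = i₁) → e i₀ = 0 → 1 ≤ n → n ≤ e i₁ → AlgebraicIndependent ℚ c →
  ∃ (Φ : MvPolynomial (Fin (n + 1)) k) (m : ℕ), Φ.IsHomogeneous m ∧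
  (∃ x : Fin (n + 1) → k, (∀ i, eval x (frmT c i) = 0 ↔ i ∈ ({i₁} : Finset ι)) ∧
    eval x Φ ≠ 0) ∧
  ∀ (K : Type) [Field K] [Algebra k K] (x : Fin (n + 1) → K),
    (∀ i, eval x (upT K (frmT c) i) = 0 ↔ i ∈ ({i₁} : Finset ι)) →
    (∃ y, Indep x y ∧ Exc e {i₁} (upT K (frmT c)) x y) ∨
      (∃ b c', LinearIndependent K ![x, b, c'] ∧ res2 x b c' (upT K (frmT c) i₁) = 0) →
    eval x (up K Φ) = 0

end Pool.Agent.H17.AH
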