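import Pool.Agent.H17.AH.TargetsF
import Pool.Agent.H17.AH.TargetsX
import Pool.Agent.H17.BO.FIPB

/-!
# MP_70ba79_ag: very general log complete intersections with the two border cases (row FIPU of the
board `ahy_modules`)
-/

set_option autoImplicit false

namespace Pool.Agent.H17.AH

open MvPolynomial SC Pool.Agent.H27.LV Pool.Agent.H17.VG
open Pool.Agent.H30.VM Pool.Agent.H17.BO
open Pool.Agent.H17.CI (Tup IlT PQT TxT frmT upT RatT)

lemma res2_coeff0 {L : Type} [Field L] {n : ℕ} (F : MvPolynomial (Fin (n + 1)) L)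
    (x b c : Fin (n + 1) → L) : (res2 x b c F).coeff 0 = eval x F := by
  rw [Polynomial.coeff_zero_eq_eval_zero]
  unfold res2
  rw [← Polynomial.coe_evalRingHom, aeval_def, hom_eval₂]
  have h1 : ((Polynomial.evalRingHom (0 : L)).comp
      (algebraMap L (Polynomial L))) = RingHom.id L := by
    ext a
    simp
  rw [h1]
  show eval₂ (RingHom.id L) _ F = eval x F
  unfold eval
  rw [coe_eval₂Hom]
  congr 1
  funext i
  simp

lemma res2_deg2 {L : Type} [Field L] {n d : ℕ} (F : MvPolynomial (Fin (n + 1)) L)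
    (hF : F.IsHomogeneous d) (x b c : Fin (n + 1) → L) :
    (res2 x b c F).natDegree ≤ d * 2 := by
  have hp : ∀ i, (Polynomial.C (x i) + Polynomial.C (b i) * Polynomial.X +
      Polynomial.C (c i) * Polynomial.X ^ 2 : Polynomial L).natDegree ≤ 2 := by
    intro i
    compute_degree
  exact aeval_natDegree_le F hF.totalDegree_le _ hp

/-- a conic which is not contained in a hyperplane meets it in at most two points -/
lemma two_lin {L : Type} [Field L] [CharZero L] {n d : ℕ} (hTW2 : T_TW2) (hd : d = 1)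
    (H : MvPolynomial (Fin (n + 1)) L) (hH : H.IsHomogeneous d) (x b c : Fin (n + 1) → L)
    (hx : eval x H ≠ 0) : TwoRoots2 d H x b c := by
  classical
  have hc0 := res2_coeff0 H x b c
  have hdeg := res2_deg2 H hH x b c
  have hne : (res2 x b c H).coeff 0 ≠ 0 := by rw [hc0]; exact hx
  have hW0 : (res2 x b c H).map (algebraMap L (AlgebraicClosure L)) ≠ 0 := by
    rw [Polynomial.map_ne_zero_iff (algebraMap L (AlgebraicClosure L)).injective]
    rintro h
    rw [h] at hne
    exact hne (Polynomial.coeff_zero 0)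
  have hcard : ∀ s : Finset (AlgebraicClosure L),
      (∀ α ∈ s, ((res2 x b c H).map (algebraMap L (AlgebraicClosure L))).eval α = 0) →
      s.card ≤ (res2 x b c H).natDegree := by
    intro s hs
    have h1 : s ⊆ ((res2 x b c H).map (algebraMap L (AlgebraicClosure L))).roots.toFinset := by
      intro α hα
      rw [Multiset.mem_toFinset, Polynomial.mem_roots hW0]
      exact hs α hα
    have h2 := (Finset.card_le_card h1).trans (Multiset.toFinset_card_le _)
    have h3 := Polynomial.card_roots' ((res2 x b c H).map (algebraMap L (AlgebraicClosure L)))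
    rw [Polynomial.natDegree_map] at h3
    exact h2.trans h3
  obtain ⟨α, β, i, j, hij, h⟩ := hTW2 L (2 * d) (res2 x b c H) (by omega) hne (by
    intro α β γ h1 h2 h3
    by_contra hcon
    push Not at hcon
    have h4 := hcard {α, β, γ} (by
      intro δ hδ
      simp only [Finset.mem_insert, Finset.mem_singleton] at hδ
      rcases hδ with rfl | rfl | rfl
      · exact h1
      · exact h2
      · exact h3)
    rw [Finset.card_eq_three.2 ⟨α, β, γ, hcon.1, hcon.2.2, hcon.2.1, rfl⟩] at h4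
    omega) (by
    intro hlt α β h1 h2
    by_contra hcon
    have h4 := hcard {α, β} (by
      intro δ hδ
      simp only [Finset.mem_insert, Finset.mem_singleton] at hδ
      rcases hδ with rfl | rfl
      · exact h1
      · exact h2)
    rw [Finset.card_pair hcon] at h4
    omega)
  refine ⟨α, β, i, j, hij, ?_⟩
  rw [hc0] at h
  exact h

/-- the border case of affine hypersurfaces -/
def BrdA (n : ℕ) {ι : Type} [Fintype ι] (e : ι → ℕ) (Z : Finset ι) : Prop :=
  n + 2 ≤ ∑ i, (e i + 1) ∧ 3 * n + 1 = 2 * ∑ i, (e i + 1) + Z.card ∧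
    ∃ i₀ i₁ : ι, i₀ ≠ i₁ ∧ (∀ i, i = i₀ ∨ i = i₁) ∧ Z = {i₁} ∧ e i₀ = 0

theorem pf_FIPU (hFB : T_FIPB) (hMN : T_MNBH) (hXH : T_XFH) (hPA : T_PTA) (hPB : T_PTB)
    (hVD : T_VDP) (hPS : T_PSP) (hTW2 : T_TW2) : T_FIPU := by
  intro n ι _ _ e Z hZu hZ hne
  by_cases hA : BrdA n e Z
  · have hBor : Border n e Z := ⟨hA.1, hA.2.1, Or.inr hA.2.2⟩
    obtain ⟨hlg, hbrd, i₀, i₁, hii, hall, hZe, he0⟩ := hA
    subst hZe
    have hsum : ∑ i, (e i + 1) = e i₁ + 2 := by
      have hu : (Finset.univ : Finset ι) = {i₀, i₁} := by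
        ext i
        simpa using hall i
      rw [hu, Finset.sum_pair hii, he0]
      omega
    rw [hsum] at hlg hbrd
    rw [Finset.card_singleton] at hbrd
    have hi₀ : i₀ ∉ ({i₁} : Finset ι) := by
      rw [Finset.mem_singleton]
      exact hii
    obtain ⟨δ, hδ⟩ : ∃ δ, n = 2 * δ + 2 := ⟨n / 2 - 1, by omega⟩
    obtain ⟨C, hC⟩ := hMN n ι i₀ i₁ e δ (by omega) hδ hii hall he0 (by omega)
    have hun : (Finset.univ \ ({i₁} : Finset ι)) = {i₀} := by
      ext i
      rcases hall i with rfl | rfl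
      · simp [hii]
      · simp [hii.symm]
    have hdg : dgB e ({i₁} : Finset ι) = 1 := by
      unfold dgB
      rw [hun, Finset.sum_singleton, he0]
    refine ⟨dgB e {i₁} * C, ?_⟩
    intro k _ _ _ c hc
    have hbnd : bnd {i₁} c = frmT c i₀ := by
      unfold bnd
      rw [hun, Finset.prod_singleton]
    refine ⟨?_, ?_, ?_⟩
    · intro K _ _ _ htr S z hz hreg hnc hexc D hD
      have hcK : CharZero K := charZero_of_injective_algebraMap (algebraMap k K).injective
      obtain ⟨x, hx⟩ := hPA k K n ι i₀ e {i₁} c hi₀ z hz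
      obtain ⟨h1, h2, h3⟩ := hVD k K htr n ι i₀ e {i₁} c z x hi₀ hx
      obtain ⟨p, hp⟩ := hx.1
      have h4 := hC k c hc K htr D hD x p hp (h3 hnc) hx.2.1
        (fun y hxy hex => hexc (Or.inl ⟨x, y, hx, hxy, hex⟩))
        (fun b c' hind hres => hexc (Or.inr ⟨hBor, x, b, c', hx, hind, by
          intro i hi
          rw [Finset.mem_singleton] at hi
          rw [hi]
          exact hres, by
          rw [hbnd]
          refine two_lin hTW2 hdg _ ?_ x b c' ?_
          · rw [hdg]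
            have h5 : (frmT c i₀).IsHomogeneous (e i₀ + 1) := frm_homog fun M => c ⟨i₀, M⟩
            rw [he0, zero_add] at h5
            exact h5.map _
          · intro h0
            exact hi₀ ((hx.2.1 i₀).1 h0)⟩)) S (fun v hv => h1 v (hreg v hv))
      rw [h2]
      show ((dgB e {i₁} * deg k x : ℕ) : ℤ) ≤ ((dgB e {i₁} * C : ℕ) : ℤ) * (canDeg D + S.card)
      rw [Nat.cast_mul, Nat.cast_mul, mul_assoc]
      exact mul_le_mul_of_nonneg_left h4 (Int.natCast_nonneg _)
    · obtain ⟨Φ, m, hΦ, ⟨x, hx, hxΦ⟩, hall'⟩ := hXH k n ι i₀ i₁ e c hii hall he0 (by omega)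
        (by omega) hc
      obtain ⟨Ψ, h1, h2⟩ := exists_pt hPB hPS i₀ e {i₁} c hi₀ Φ m hΦ x hx hxΦ
      refine ⟨Ψ, h1, ?_⟩
      rintro K _ _ z (⟨x', y, hx', hxy, hex⟩ | ⟨-, x', b, c', hx', hind, hcon, -⟩)
      · exact h2 K z x' hx' (hall' K x' hx'.2.1 (Or.inl ⟨y, hxy, hex⟩))
      · exact h2 K z x' hx' (hall' K x' hx'.2.1 (Or.inr ⟨b, c', hind,
          hcon i₁ (Finset.mem_singleton_self i₁)⟩))
    · intro K _ _ z
      constructor
      · intro hz
        exact hPA k K n ι i₀ e {i₁} c hi₀ z hz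
      · rintro ⟨x, hx⟩
        exact hPB k K n ι e {i₁} c z x hx
  · have hto : Border n e Z → Brd n e Z := by
      rintro ⟨h1, h2, ⟨h3, h4⟩ | h3⟩
      · refine ⟨h3, h4, h1, ?_⟩
        rw [h3, Finset.card_empty] at h2
        omega
      · exact absurd ⟨h1, h2, h3⟩ hA
    have hof : Brd n e Z → Border n e Z := by
      rintro ⟨h1, h2, h3, h4⟩
      refine ⟨h3, ?_, Or.inl ⟨h1, h2⟩⟩
      rw [h1, Finset.card_empty]
      omega
    obtain ⟨C, hC⟩ := hFB n ι e Z hZu hZ (hne.imp_right hto)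
    refine ⟨C, ?_⟩
    intro k _ _ _ c hc
    obtain ⟨h1, ⟨Ψ, h2, h3⟩, h4⟩ := hC k c hc
    refine ⟨?_, ⟨Ψ, h2, ?_⟩, h4⟩
    · intro K _ _ _ htr S z hz hreg hnc hexc D hD
      refine h1 K htr S z hz hreg hnc ?_ D hD
      rintro (h | ⟨h, x, b, c', hx, hind, htwo⟩)
      · exact hexc (Or.inl h)
      · refine hexc (Or.inr ⟨hof h, x, b, c', hx, hind, ?_, htwo⟩)
        intro i hi
        rw [h.1] at hi
        exact absurd hi (Finset.notMem_empty _)
    · rintro K _ _ z (h | ⟨h, x, b, c', hx, hind, -, htwo⟩)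
      · exact h3 K z (Or.inl h)
      · exact h3 K z (Or.inr ⟨hto h, x, b, c', hx, hind, htwo⟩)

end Pool.Agent.H17.AH
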