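import Pool.Agent.H17.AH.Defs

/-!
# MP_70ba79_ag: targets of the board `ahy_modules`, part A (steps and determinants)

Compare `Pool/Agent/H17/BO/TargetsA.lean` (one form, `Z` empty) and
`Pool/Agent/H30/VM/TargetsC.lean`, `Pool/Agent/H30/VM/TargetsD.lean`.
-/

set_option autoImplicit false

namespace Pool.Agent.H17.AH

open MvPolynomial SC Pool.Agent.H27.LV Pool.Agent.H17.VG
open Pool.Agent.H30.VM Pool.Agent.H17.BO
open Pool.Agent.H17.CI (Tup IlT PQT TxT frmT upT RatT)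

/-- STBT: the steps in the border case, `δ = ∑ (e i + 1) - n - 1`, the variety has dimension
`2 δ + 1` -/
def T_STBT : Prop := ∀ (R k K : Type) [Field R] [Field k] [Field K] [CharZero k] [CharZero K]
  [Algebra k K] [Algebra R K] (n : ℕ) (ι : Type) [Fintype ι] (i₀ : ι) (e : ι → ℕ)
  (F : Tup ι K n) (D : Derivation R K K) (Z : Finset ι) (x : Fin (n + 1) → K) (δ : ℕ), 1 ≤ δ →
  i₀ ∉ Z → n = 2 * δ + 1 + Z.card → ∑ i, (e i + 1) = n + 1 + δ → SysT i₀ e F D → Pt Z F D x →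
  (∀ y : Fin (n + 1) → K, Indep x y → ¬ Exc e Z F x y) →
  (∃ Q : Fin (δ - 1) → (Σ i, Mon (n + 1) (e i)) → k,
    n ≤ Module.finrank K (UtT R i₀ F x (PQT x fun j => upT K (frmT (Q j)))) + Z.card) ∨
  ∃ (Q : Fin (δ - 1) → (Σ i, Mon (n + 1) (e i)) → k) (q : (Σ i, Mon (n + 1) (e i)) → k),
    Module.finrank K (UtT R i₀ F x (PQT x fun j => upT K (frmT (Q j)))) + 1 + Z.card = n ∧
    UtT R i₀ F x (PQT x (Sum.elim (fun j => upT K (frmT (Q j))) fun _ : Unit =>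
      upT K (frmT q))) = TxT Z F x

/-- FNLT: velocities as functionals of the symbol. (`F i₀` in the component `i₀` is the symbol of
a multiple of the identity matrix, with scalings for the other components.) -/
def T_FNLT : Prop := ∀ (R K : Type) [Field R] [Field K] [CharZero K] [Algebra R K] (n : ℕ)
  (ι : Type) [Fintype ι] (i₀ : ι) (e : ι → ℕ) (F : Tup ι K n) (D : Derivation R K K)
  (x ν : Fin (n + 1) → K), SysT i₀ e F D → ∑ i, ν i * x i = 0 → ∑ i, ν i * D (x i) = 0 →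
  ∃ y : (Σ i, Mon (n + 1) (e i + 1)) → K,
    (∀ (τ : Op R K n) (l : ι → K) (G : Tup ι K n), Sym i₀ F τ l G →
      fnT y G = ∑ i, ν i * opV τ x i) ∧
    (∀ j a, fnT y (fun i => X j * pderiv a (F i)) = -(x j * ν a)) ∧
    ∀ i, fnT y (fun j => letI := Classical.decEq ι; if j = i then F j else 0) = 0

/-- NB3T: choice of columns, third case: codimension two. `σ`, `ν` do not depend on the last
family. (`ν` is a basis of the linear forms which vanish on the velocities and on the unit vectors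
of the equations.) -/
def T_NB3T : Prop := ∀ (R k K : Type) [Field R] [Field k] [Field K] [CharZero K]
  [Algebra k K] [Algebra R K] (n s : ℕ) (ι : Type) [Fintype ι] [DecidableEq ι] (i₀ : ι)
  (e : ι → ℕ) (F : Tup ι K n) (D : Derivation k K K) (D' : Derivation R K K) (Z : Finset ι)
  (x : Fin (n + 1) → K) (p : Fin (n + 1)), x p = 1 →
  SysT i₀ e F D' → (∀ z, D' z = D z) → Pt Z F D' x →
  ∀ (Q : Fin s → Tup ι K n) (τ : Fin (n + 1) → Fin s → Op R K n)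
    (l : Fin (n + 1) → Fin s → ι → K),
  (∀ i j, Sym i₀ F (τ i j) (l i j) (fun a => X i * Q j a)) →
  Module.finrank K (UtT R i₀ F x (PQT x Q)) + 1 + Z.card = n →
  ∀ J : Z → Fin (n + 1), gJ F x J ≠ 0 →
  ∃ (T : Finset (Fin (n + 1) × Fin s))
    (e0 : ((T ⊕ Fin 3) ⊕ Fin 2) ⊕ Z ≃ Fin (n + 1) ⊕ Fin (s + 1)) (σ : K)
    (ν : Fin 2 → Fin (n + 1) → K), σ ≠ 0 ∧
    LinearIndependent K (Sum.elim ν fun (i : Z) (a : Fin (n + 1)) => eval x (pderiv a (F i))) ∧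
    (∀ b, ∀ w ∈ UtT R i₀ F x (PQT x Q), ∑ i, ν b i * w i = 0) ∧
    (∀ b, ∑ i, ν b i * x i = 0) ∧ (∀ b, ∑ i, ν b i * D (x i) = 0) ∧
    ∀ τq : Fin (n + 1) → Op R K n, ∀ a : Fin 3 → Fin (n + 1),
    ((bigP D x (Sum.elim (fun c : T => τ c.1.1 c.1.2) (fun t : Fin 3 => τq (a t)))
      (Sum.elim (fun c => c.1.1) (fun t : Fin 3 => a t))
      (Sum.elim (fun c => c.1.2.castSucc) (fun _ => Fin.last s)) J).submatrix e0 id).det =
      σ * (Matrix.of fun t r : Fin 3 => (![x (a t), ∑ i, ν 0 i * opV (τq (a t)) x i,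
        ∑ i, ν 1 i * opV (τq (a t)) x i] : Fin 3 → K) r).det

/-- D3T: the height inequality in the border case: heights of all determinants `det3T` -/
def T_D3T : Prop := ∀ (R k K : Type) [Field R] [Field k] [IsAlgClosed k] [CharZero k] [Field K]
  [Algebra k K] [Algebra R K] [Algebra.EssFiniteType k K], Algebra.trdeg k K = 1 →
  ∀ (n s : ℕ) (ι : Type) [Fintype ι] (i₀ : ι) (e : ι → ℕ), ∑ i, (e i + 1) = n + 1 + (s + 1) →
  ∀ F : Tup ι k n, (∀ i, (F i).IsHomogeneous (e i + 1)) → NCr F →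
  ∀ (D : Derivation k K K) (D' : Derivation R K K), D ≠ 0 → (∀ z, D' z = D z) →
  SysT i₀ e (upT K F) D' →
  (∀ G : Tup ι k n, (∀ i, (G i).IsHomogeneous (e i + 1)) →
    ∃ (τ : Op R K n) (l : ι → K), RatT k τ l ∧ Sym i₀ (upT K F) τ l (upT K G)) →
  ∀ (Z : Finset ι) (x : Fin (n + 1) → K) (p : Fin (n + 1)), x p = 1 → Pt Z (upT K F) D' x →
  ∀ S : Finset (DV k K),
  (∀ v, v ∉ S → ∀ i, i ∉ Z → v.ord (eval x (upT K F i)) = -((e i + 1 : ℕ) * poleOrder v x)) →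
  ∀ (Q : Fin s → (Σ i, Mon (n + 1) (e i)) → k) (q : (Σ i, Mon (n + 1) (e i)) → k),
  Module.finrank K (UtT R i₀ (upT K F) x (PQT x fun j => upT K (frmT (Q j)))) + 1 + Z.card = n →
  UtT R i₀ (upT K F) x (PQT x (Sum.elim (fun j => upT K (frmT (Q j)))
    fun _ : Unit => upT K (frmT q))) = TxT Z (upT K F) x →
  ∃ (y : Fin 2 → (Σ i, Mon (n + 1) (e i + 1)) → K) (ν : Fin 2 → Fin (n + 1) → K),
    FunT Z (upT K F) x y ν ∧
    ∃ a0 : Fin 3 → Fin (n + 1), det3T x y (upT K (frmT q)) a0 ≠ 0 ∧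
    ∀ (κ : Type) [Fintype κ] (f : κ → (Σ i, Mon (n + 1) (e i)) → k)
      (a : κ → Fin 3 → Fin (n + 1)),
      (deg k (fun c : κ => det3T x y (upT K (frmT (f c))) (a c) /
        det3T x y (upT K (frmT q)) a0) : ℤ) ≤ canDeg D + S.card

/-- REDH: two forms, one of them linear: reduction to the other one, relative to the
hyperplane -/
def T_REDH : Prop := ∀ (K : Type) [Field K] (n : ℕ) (ι : Type) [Fintype ι] (i₀ i₁ : ι)
  (e : ι → ℕ) (F : Tup ι K n) (x : Fin (n + 1) → K)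
  (y : Fin 2 → (Σ i, Mon (n + 1) (e i + 1)) → K) (ν : Fin 2 → Fin (n + 1) → K),
  i₀ ≠ i₁ → (∀ i, i = i₀ ∨ i = i₁) → e i₀ = 0 → (∀ i, (F i).IsHomogeneous (e i + 1)) →
  FunT {i₁} F x y ν →
  FunH (F i₁) (F i₀) x (fun b (M : Mon (n + 1) (e i₁ + 1)) => y b ⟨i₁, M⟩) ν ∧
  ∀ w : Fin (n + 1) → K, eval w (F i₀) = 1 → ∀ Q : Tup ι K n,
    (∀ i, (Q i).IsHomogeneous (e i)) → ∀ a : Fin 3 → Fin (n + 1),
    det3T x y Q a = det3 x (fun b (M : Mon (n + 1) (e i₁ + 1)) => y b ⟨i₁, M⟩)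
      (Q i₁ - C (coeff 0 (Q i₀)) * dir w (F i₁)) a

end Pool.Agent.H17.AH
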