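import Pool.Agent.H17.BO.All2
import Pool.Agent.H17.AH.ALBH
import Pool.Agent.H17.AH.CMPH
import Pool.Agent.H17.AH.FIPU
import Pool.Agent.H77.AH.STBT
import Pool.Agent.H3.AH.D3T
import Pool.Agent.H54.AH.FNLT
import Pool.Agent.H54.AH.KLVH
import Pool.Agent.H19.AH.ALH
import Pool.Agent.H19.AH.NCT
import Pool.Agent.H59.AH.TERH
import Pool.Agent.H22.AH.XFH
import Pool.Agent.H49.AH.XPCH
import Pool.Agent.H86.AH.REDH
import Pool.Agent.H86.AH.BZH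
import Pool.Agent.H91.AH.TRIH
import Pool.Agent.H91.AH.XMCH
import Pool.Agent.H35.AH.NB3T

/-!
# MP_70ba79_ag: very general log complete intersections and the border cases, assembly
-/

set_option autoImplicit false

namespace Pool.Agent.H17.AH

open Pool.Agent.H17.BO Pool.Agent.H30.VM

/-- the algebraic theorem with heights -/
theorem cmph_all : T_CMPH := by
  have hG2 : Pool.Agent.H17.VG.T_G2 := Pool.Agent.H17.VG.G2 Pool.Agent.H66.VG.g1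
  have hLSL : T_LSL := Pool.Agent.H63.BO.LSL.pf_LSL
  have hOLN : T_OLN := Pool.Agent.H63.BO.OLN.pf_OLN
  have hEVX : T_EVX := Pool.Agent.H63.BO.EVX.pf_EVX Pool.Agent.H77.VG.ip
  have hANN : T_ANN := Pool.Agent.H68.BO.pf_ANN hLSL hEVX
  have hSG3 : T_SG3 := Pool.Agent.H56.BO.pf_SG3 hANN hEVX hOLN
  have hTRIH : T_TRIH := Pool.Agent.H91.AH.pf_TRIH hANN hEVX hOLN
  have hTER : T_TERH := Pool.Agent.H59.AH.pf_TERH Pool.Agent.H20.BO.pf_DTT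
    Pool.Agent.H3.BO.MAT.pf_MAT hTRIH hLSL Pool.Agent.H19.BO.pf_RK1 Pool.Agent.H1.BO.pf_SG2 hSG3
  have hALH : T_ALH := Pool.Agent.H19.AH.ALH.pf_ALH Pool.Agent.H79.BO.pf_PLN
    Pool.Agent.H69.BO.pf_RES hTER
  have hLDJ : T_LDJ := Pool.Agent.H54.BO.pf_LDJ
  have hKLV : T_KLVH := Pool.Agent.H54.AH.pf_KLVH Pool.Agent.H15.BO.pf_QD
    (Pool.Agent.H34.VMP.pf_NC hG2) Pool.Agent.H19.AH.NCT.pf_NCT hALH
    (Pool.Agent.H11.BO.pf_KLL hLDJ)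
    (Pool.Agent.H37.BO.pf_KLC hLDJ Pool.Agent.H15.BO.pf_IMP) Pool.Agent.H86.AH.pf_BZH
    Pool.Agent.H15.BO.pf_PAR Pool.Agent.H20.BO.pf_CSU
  have hHTA : T_HTA := Pool.Agent.H95.BO.pf_HTA Pool.Agent.H27.LV.pfm
  have hULT : T_ULT := Pool.Agent.H72.BO.pf_ULT Pool.Agent.H72.BO.pf_ULF hHTA
    Pool.Agent.H59.BO.pf_HTR
  exact pf_CMPH hHTA hULT hKLV (Pool.Agent.H72.BO.pf_TFL hHTA) Pool.Agent.H15.BO.pf_TFE

/-- the main theorem in homogeneous coordinates -/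
theorem mnbh_all : T_MNBH := by
  have hOP := Pool.Agent.H97.VG.op
  have hRS := Pool.Agent.H52.VG.rs
  have hRO := Pool.Agent.H52.VG.ro
  have hIL := Pool.Agent.H52.VG.il
  have hLF := Pool.Agent.H52.VG.lf
  have hIP := Pool.Agent.H77.VG.ip
  have hEV := Pool.Agent.H97.VG.ev
  have hLL := Pool.Agent.H17.VG.ll Pool.Agent.H30.VG.d0
  have hG1 := Pool.Agent.H66.VG.g1
  have hG2 := Pool.Agent.H17.VG.G2 hG1
  have hSY : T_SY := Pool.Agent.H1.VMP.pf_SY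
  have hWDT : Pool.Agent.H30.VM.T_WDT := Pool.Agent.H77.VMP.pf_WDT
  have hEVT : T_EVT := Pool.Agent.H50.VMP.pf_EVT hEV hRS
  have hSUT : T_SUT := Pool.Agent.H91.VMP.pf_SUT hEV hRS
  have hIMT : T_IMT := Pool.Agent.H39.VMP.pf_IMT hOP hRS hRO hLF
  have hJYT : T_JYT := Pool.Agent.H34.VMP.pf_JYT hRS hLF
  have hKYT : T_KYT := Pool.Agent.H77.VMP.pf_KYT hRS
  have hPST : T_PST := Pool.Agent.H1.VMP.pf_PST hOP hRS hIL hEVT hSUT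
  have hIQT : T_IQT := Pool.Agent.H33.VMP.pf_IQT hOP hRO
  have hETT : T_ETT := Pool.Agent.H91.VMP.pf_ETT hRS hKYT hPST hIMT
  have hRLT : T_RLT := Pool.Agent.H30.VM.pf_RLT hRS Pool.Agent.H97.VG.re Pool.Agent.H97.VG.dc
    hLF hETT hPST hIQT hJYT
  have hDGT : T_DGT := Pool.Agent.H91.VMP.pf_DGT hRS
  have hBT : T_BT := Pool.Agent.H34.VMP.pf_BT hRS hJYT hRLT hDGT hPST
  have hBIT : T_BIT := Pool.Agent.H65.VM.pf_BIT hWDT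
  have hTPT : T_TPT := Pool.Agent.H1.VMP.pf_TPT hIP hSY hEVT hSUT
  have hSTBT : T_STBT := Pool.Agent.H77.AH.pf_STBT hBT Pool.Agent.H56.BO.pf_CB
    Pool.Agent.H15.BO.pf_KB Pool.Agent.H17.VG.KP hBIT hTPT hEVT
  have hSMT : Pool.Agent.H30.VM.T_SMT := Pool.Agent.H42.VMP.pf_SMT hTPT hEVT hSY hWDT
  have hDBT : T_DBT := Pool.Agent.H59.VM.pf_DBT Pool.Agent.H91.VMP.pf_GRT
    (Pool.Agent.H68.VMP.pf_ROW hLL hEV) Pool.Agent.H64.CI.pf_DET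
  have hDT : T_DT := Pool.Agent.H30.VMP.pf_DT hDBT Pool.Agent.H77.VMP.pf_SU4
    (Pool.Agent.H1.VMP.pf_NAT hSY hWDT hEVT) (Pool.Agent.H35.VMP.pf_NBT hSY hWDT hEVT) hWDT hOP
  have hFNLT : T_FNLT := Pool.Agent.H54.AH.pf_FNLT hWDT hSY hOP
  have hNB3T : T_NB3T := Pool.Agent.H35.AH.pf_NB3T hSY hWDT hEVT
  have hD3T : T_D3T := Pool.Agent.H3.AH.pf_D3T hNB3T hFNLT hDBT Pool.Agent.H77.VMP.pf_SU4 hOP
    Pool.Agent.H27.LV.pfi
  have hGT : T_GT := Pool.Agent.H30.VMP.pf_GT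
    (Pool.Agent.H25.VMP.pf_FET Pool.Agent.H25.VMP.pf_HA)
    Pool.Agent.H39.VMP.pf_BST Pool.Agent.H17.CI.pf_FDT (Pool.Agent.H64.CI.pf_DXT hG1)
    Pool.Agent.H59.CI.pf_KDT Pool.Agent.H97.VG.cd hOP
  have hNC : Pool.Agent.H30.VM.T_NC := Pool.Agent.H34.VMP.pf_NC hG2
  have hALBH : T_ALBH := pf_ALBH hSTBT hSMT hDT hD3T Pool.Agent.H86.AH.pf_REDH hGT hNC hEVT
    cmph_all
  exact pf_MNBH hALBH Pool.Agent.H17.CI.e_all Pool.Agent.H91.VMP.pf_ROT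
    Pool.Agent.H18.VMP.pf_TRT

/-- the union of the three main theorems -/
theorem fipu_all : T_FIPU := by
  have hG1 := Pool.Agent.H66.VG.g1
  have hXDD := Pool.Agent.H17.CI.pf_XDD hG1
  have hXMCH : T_XMCH := Pool.Agent.H91.AH.pf_XMCH Pool.Agent.H78.BO.pf_RS2
    Pool.Agent.H20.BO.pf_DR2 hXDD
  have hXFH : T_XFH := Pool.Agent.H22.AH.pf_XFH hXMCH Pool.Agent.H49.AH.pf_XPCH
    (Pool.Agent.H18.VMP.pf_XMT hXDD) Pool.Agent.H91.VMP.pf_XPO Pool.Agent.H30.VMP.pf_NFT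
    Pool.Agent.H6.CI.pf_GPT Pool.Agent.H49.CI.pf_XEL (Pool.Agent.H45.CI.pf_NZT hXDD)
    Pool.Agent.H45.CI.pf_NST
  exact pf_FIPU fipb_all mnbh_all hXFH Pool.Agent.H49.VMP.pf_PTA
    (Pool.Agent.H59.VM.pf_PTB Pool.Agent.H45.CI.pf_NST)
    (Pool.Agent.H95.VMP.pf_VDP Pool.Agent.H92.VG.pf_VD) Pool.Agent.H19.VMP.pf_PSP
    Pool.Agent.H11.BO.pf_TW2

end Pool.Agent.H17.AH
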