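import Pool.Agent.H17.BO.TargetsF
import Pool.Agent.H30.VM.TargetsF

/-!
# MP_70ba79_ag: very general affine hypersurfaces, border case `2 d = 3 n - 2`

Common definitions of the modules of the board `ahy_modules`. `F i₁` is a form of degree
`e i₁ + 1`, `F i₀` is a linear form (`e i₀ = 0`); the affine hypersurface is `F i₁ = 0`,
`F i₀ ≠ 0`. Notation as in `Pool/Agent/H30/VM` (families of forms) and `Pool/Agent/H17/BO` (border
case for the complement of a hypersurface).
-/

set_option autoImplicit false

namespace Pool.Agent.H17.AH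

open MvPolynomial SC Pool.Agent.H27.LV Pool.Agent.H17.VG
open Pool.Agent.H30.VM Pool.Agent.H17.BO
open Pool.Agent.H17.CI (Tup IlT PQT TxT frmT upT RatT)

section Tuples

variable {K : Type} [Field K] {n : ℕ} {ι : Type} [Fintype ι] {e : ι → ℕ}

/-- the linear functional on families of forms with the value `y ⟨i, M⟩` on the monomial `M` in
the component `i` -/
noncomputable def fnT (y : (Σ i, Mon (n + 1) (e i + 1)) → K) (G : Tup ι K n) : K :=
  ∑ i, fnl (fun M => y ⟨i, M⟩) (G i)

/-- the determinant with the rows `x`, `y 0 (X Q)`, `y 1 (X Q)` and the columns `a 0, a 1, a 2` -/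
noncomputable def det3T (x : Fin (n + 1) → K) (y : Fin 2 → (Σ i, Mon (n + 1) (e i + 1)) → K)
    (Q : Tup ι K n) (a : Fin 3 → Fin (n + 1)) : K :=
  (Matrix.of fun t r : Fin 3 =>
    (![x (a t), fnT (y 0) (fun i => X (a t) * Q i), fnT (y 1) (fun i => X (a t) * Q i)] :
      Fin 3 → K) r).det

/-- two functionals `y b` on families of forms which belong to two functionals `ν b` on vectors;
the `ν b` and the gradients of the equations of the variety are independent -/
structure FunT (Z : Finset ι) (F : Tup ι K n) (x : Fin (n + 1) → K)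
    (y : Fin 2 → (Σ i, Mon (n + 1) (e i + 1)) → K) (ν : Fin 2 → Fin (n + 1) → K) : Prop where
  ind : LinearIndependent K
    (Sum.elim ν fun (i : Z) (a : Fin (n + 1)) => eval x (pderiv a (F i)))
  grad : ∀ b j a, fnT (y b) (fun i => X j * pderiv a (F i)) = -(x j * ν b a)
  mul : ∀ b i, fnT (y b) (fun j => letI := Classical.decEq ι; if j = i then F j else 0) = 0
  orth : ∀ b, ∑ a, ν b a * x a = 0

end Tuples

section Single

variable {K : Type} [Field K] {n : ℕ}

/-- the same for one form `F`, relative to the hyperplane `H = 0` -/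
structure FunH {d : ℕ} (F H : MvPolynomial (Fin (n + 1)) K) (x : Fin (n + 1) → K)
    (y : Fin 2 → Mon (n + 1) d → K) (ν : Fin 2 → Fin (n + 1) → K) : Prop where
  ind : LinearIndependent K ![ν 0, ν 1, fun a => eval x (pderiv a F)]
  grad : ∀ b j (w : Fin (n + 1) → K), eval w H = 0 →
    fnl (y b) (X j * dir w F) = -(x j * ∑ a, ν b a * w a)
  mul : ∀ b, fnl (y b) F = 0
  orth : ∀ b, ∑ a, ν b a * x a = 0

/-- the hypersurface `F = 0` is smooth and transversal to the hyperplane `H = 0` -/
def Trv (F H : MvPolynomial (Fin (n + 1)) K) : Prop :=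
  ∀ z : Fin (n + 1) → K, z ≠ 0 → eval z F = 0 →
    ∃ w : Fin (n + 1) → K, eval w H = 0 ∧ eval z (dir w F) ≠ 0

end Single

end Pool.Agent.H17.AH
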