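import Pool.Agent.H17.AH.Defs

/-!
# MP_70ba79_ag: targets of the board `ahy_modules`, part C (the algebraic theorem)

Compare `Pool/Agent/H17/BO/TargetsC.lean`. `k` is an algebraically closed field, `L` an extension
of `k`.
-/

set_option autoImplicit false

namespace Pool.Agent.H17.AH

open MvPolynomial SC Pool.Agent.H27.LV Pool.Agent.H17.VG
open Pool.Agent.H30.VM Pool.Agent.H17.BO
open Pool.Agent.H17.CI (Tup IlT PQT TxT frmT upT RatT)

/-- NCT: normal crossings of a form and a linear form: if `∂_w F (z) = 0` for all `w` with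
`H (w) = 0` then the gradient of `F` at `z` is a multiple of `H`; by Euler it is `0` or
`H (z) = 0` -/
def T_NCT : Prop := ∀ (k : Type) [Field k] [CharZero k] (n : ℕ) (ι : Type) (i₀ i₁ : ι)
  (e : ι → ℕ) (F : Tup ι k n), i₀ ≠ i₁ → e i₀ = 0 → (∀ i, (F i).IsHomogeneous (e i + 1)) →
  NCr F → Trv (F i₁) (F i₀)

/-- TRIH: the triangular case: `y (Q) = a Q (x) + c Q (z)` with `c ≠ 0` and a point `z` over `k`
where all `g a` and `f` are zero. (As in `Pool.Agent.H17.BO.T_TRI`, and `Pool.Agent.H17.BO.T_EVX`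
for the functional `y - c (evaluation at z)`.) -/
def T_TRIH : Prop := ∀ (k L : Type) [Field k] [Field L] [Algebra k L] (e m : ℕ)
  (g : Fin m → MvPolynomial (Fin 3) k) (f : MvPolynomial (Fin 3) k),
  (∀ a, (g a).IsHomogeneous (e + 1)) → f.IsHomogeneous (e + 2) →
  (∀ z : Fin 3 → k, z ≠ 0 → eval z f = 0 → ∃ a, eval z (g a) ≠ 0) →
  ∀ (x : Fin 3 → L) (y : Mon 3 (e + 2) → L) (m0 m1 : Fin 3 → L), x ≠ 0 →
  eval x (up L f) = 0 → fnl y (up L f) = 0 →
  LinearIndependent L ![m0, m1] → ∑ t, m0 t * x t = 0 → ∑ t, m1 t * x t = 0 →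
  (∀ ζ : Fin 3 → L, ∑ t, ζ t * x t = 0 → ∀ a, fnl y (lin ζ * up L (g a)) = 0) →
  (∀ Q : Mon 3 (e + 1) → k, fnl y (lin m0 * up L (frm Q)) = 0) →
  (∀ Q : Mon 3 (e + 1) → k, ∃ r : k, fnl y (lin m1 * up L (frm Q)) = algebraMap k L r) →
  (∃ Q : Mon 3 (e + 1) → k, fnl y (lin m1 * up L (frm Q)) ≠ 0) → OnLine k x

/-- TERH: the algebraic theorem in the plane. (As `Pool.Agent.H17.BO.T_TER`, with T_TRIH instead of
`Pool.Agent.H17.BO.T_TRI`; a vector `w` with `∑ ν b a * w a = 0` and `∑ w a * g a (x) ≠ 0` exists by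
the first hypothesis on `ν`.) -/
def T_TERH : Prop := ∀ (k L : Type) [Field k] [IsAlgClosed k] [CharZero k] [Field L]
  [Algebra k L] (e m : ℕ), 1 ≤ e →
  ∀ (g : Fin m → MvPolynomial (Fin 3) k) (f : MvPolynomial (Fin 3) k),
  (∀ a, (g a).IsHomogeneous (e + 1)) → f.IsHomogeneous (e + 2) →
  (∀ z : Fin 3 → k, z ≠ 0 → eval z f = 0 → ∃ a, eval z (g a) ≠ 0) →
  ∀ (x : Fin 3 → L) (y : Fin 2 → Mon 3 (e + 2) → L) (ν : Fin 2 → Fin m → L),
  LinearIndependent L ![ν 0, ν 1, fun a => eval x (up L (g a))] →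
  (∀ b j a, fnl (y b) (X j * up L (g a)) = -(x j * ν b a)) →
  (∀ b, fnl (y b) (up L f) = 0) → eval x (up L f) = 0 →
  ∀ κ : L, (∀ Q : Mon 3 (e + 1) → k, ∃ r : k,
    det3 x y (up L (frm Q)) id = κ * algebraMap k L r) →
  (∃ Q : Mon 3 (e + 1) → k, det3 x y (up L (frm Q)) id ≠ 0) → OnLine k x ∨ OnConic k x

/-- ALH: the algebraic theorem. (As `Pool.Agent.H17.BO.T_ALG`: `Pool.Agent.H17.BO.T_PLN`,
`Pool.Agent.H17.BO.T_RES`, then T_TERH for the restrictions to the plane of `F` and of its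
derivatives in the directions of the hyperplane, for example
`∂_a F - H (e_a) ∂_v F`, where `H (v) = 1`. If a combination of `ν 0`, `ν 1` and the gradient is
zero on the hyperplane it is a multiple of `H`; its value at `x` is `0`, so it is `0`.) -/
def T_ALH : Prop := ∀ (k L : Type) [Field k] [IsAlgClosed k] [CharZero k] [Field L]
  [Algebra k L] (n e : ℕ), 2 ≤ e → ∀ F H : MvPolynomial (Fin (n + 1)) k,
  F.IsHomogeneous (e + 1) → H.IsHomogeneous 1 → Trv F H →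
  ∀ (x : Fin (n + 1) → L) (y : Fin 2 → Mon (n + 1) (e + 1) → L) (ν : Fin 2 → Fin (n + 1) → L),
  FunH (up L F) (up L H) x y ν → eval x (up L F) = 0 → eval x (up L H) ≠ 0 → ∀ κ : L,
  (∀ (Q : Mon (n + 1) e → k) (a : Fin 3 → Fin (n + 1)), ∃ r : k,
    det3 x y (up L (frm Q)) a = κ * algebraMap k L r) →
  (∃ (Q : Mon (n + 1) e → k) (a : Fin 3 → Fin (n + 1)),
    det3 x y (up L (frm Q)) a ≠ 0) → OnLine k x ∨ OnConic k x

end Pool.Agent.H17.AH
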